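import Mathlib

/-! # First homology with Steinberg coefficients: definitions and parts (S02757) -/

namespace Pool.Agent.W31.SN

open scoped BigOperators

/-! ## numbers -/

/-- One step `a → a - u * k` with a unit `u`, ending at norm less than `N k`. -/
def Step {R : Type} [CommRing R] (N : R → ℕ) (k a a' : R) : Prop :=
  N a' < N k ∧ ∃ u : Rˣ, a' = a - u * k

/-- The properties of the norm of the Gaussian and the Eisenstein integers which are used. -/
structure NormOk (R : Type) [CommRing R] (N : R → ℕ) : Prop where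
  zero : ∀ a, N a = 0 ↔ a = 0
  unit : ∀ (u : Rˣ) (a : R), N (u * a) = N a
  /-- two representatives of small norm are connected through representatives of small norm by
  unit steps -/
  conn : ∀ k a a' : R, k ≠ 0 → N a ≤ N k → N a' < N k → k ∣ (a - a') →
    Relation.ReflTransGen (Step N k) a a'
  /-- simultaneous small representatives of `a`, `b` and `a + b` modulo `k` -/
  tri : ∀ k a b : R, k ≠ 0 → ∃ c d : R, N (a - c * k) < N k ∧ N (b - d * k) < N k ∧
    N (a - c * k + (b - d * k)) < N k

/-- Part 1. -/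
def Task1 : Prop := ∀ (K : Type) [Field K] [NumberField K],
  (Nonempty (K ≃+* CyclotomicField 4 ℚ) ∨ Nonempty (K ≃+* CyclotomicField 3 ℚ)) →
  IsPrincipalIdealRing (NumberField.RingOfIntegers K) ∧
    ∃ N : NumberField.RingOfIntegers K → ℕ, NormOk (NumberField.RingOfIntegers K) N

/-! ## frames and flags -/

section geo

variable {R K V : Type} [CommRing R] [Field K] [Algebra R K] [AddCommGroup V] [Module K V]
  [Module R V] [IsScalarTower R K V]

/-- `l` is a list of vectors of the lattice `Λ` whose classes form a basis of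
`Λ / (Λ ∩ W)`. -/
def Frame (Λ : Submodule R V) (W : Submodule K V) (l : List V) : Prop :=
  (∀ x ∈ l, x ∈ Λ) ∧ Λ ≤ W.restrictScalars R ⊔ Submodule.span R {x | x ∈ l} ∧
    l.length + Module.finrank K W = Module.finrank K V

/-- Auxiliary recursion for `apt`. -/
noncomputable def aptN : ℕ → Submodule K V → List V → (List (Submodule K V) →₀ ℤ)
  | 0, _, _ => Finsupp.single [] 1
  | n + 1, W, l => ∑ i ∈ Finset.range (n + 1), (-1 : ℤ) ^ i •
      Finsupp.mapDomain (List.cons (W ⊔ Submodule.span K {l.getD i 0}))
        (aptN n (W ⊔ Submodule.span K {l.getD i 0}) (l.eraseIdx i))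

/-- The apartment of the list `l` over `W`: the signed sum of all flags
`W + K x_1 < W + K x_1 + K x_2 < …` (including the whole space as last member), over all orderings
of `l`. -/
noncomputable def apt (W : Submodule K V) (l : List V) : List (Submodule K V) →₀ ℤ :=
  aptN l.length W l

/-- `z` is a cycle of full flags over `W`: the flags are strictly increasing lists of subspaces
above `W` of length `m`, ending with the whole space, and for every position except the last one
the image of `z` under the deletion of this position is zero. -/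
def IsCyc (W : Submodule K V) (m : ℕ) (z : List (Submodule K V) →₀ ℤ) : Prop :=
  (∀ F ∈ z.support, F.length = m ∧ List.IsChain (· < ·) (W :: F) ∧
    (W :: F).getLast (List.cons_ne_nil _ _) = ⊤) ∧
  ∀ i : ℕ, i + 1 < m → Finsupp.mapDomain (fun F : List (Submodule K V) => F.eraseIdx i) z = 0

/-- `φ` satisfies the Bykovskii relations on frames over `W`. -/
structure Good (Λ : Submodule R V) (W : Submodule K V) {A : Type} [AddCommGroup A]
    (φ : List V → A) : Prop where
  perm : ∀ (l₁ : List V) (x y : V) (l₂ : List V), Frame Λ W (l₁ ++ x :: y :: l₂) →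
    φ (l₁ ++ y :: x :: l₂) = - φ (l₁ ++ x :: y :: l₂)
  unit : ∀ (u : Rˣ) (x : V) (l : List V), Frame Λ W (x :: l) → φ ((u : R) • x :: l) = φ (x :: l)
  inv : ∀ (h x : V) (l : List V), h ∈ Λ → h ∈ W → Frame Λ W (x :: l) →
    φ ((x + h) :: l) = φ (x :: l)
  add : ∀ (x y : V) (l : List V), Frame Λ W (x :: y :: l) →
    φ (x :: y :: l) - φ ((x + y) :: y :: l) + φ ((x + y) :: x :: l) = 0

end geo

/-- Part 2 (the relations suffice). -/
def Task2 : Prop := ∀ (R K V : Type) [CommRing R] [IsDomain R] [Field K] [Algebra R K]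
  [IsFractionRing R K] [AddCommGroup V] [Module K V] [Module R V] [IsScalarTower R K V]
  [FiniteDimensional K V] (N : R → ℕ), NormOk R N → ∀ (Λ : Submodule R V),
  Submodule.span K (Λ : Set V) = ⊤ → ∀ (W : Submodule K V)
  (A : Type) [AddCommGroup A] (φ : List V → A), Good Λ W φ → ∀ z : List V →₀ ℤ,
  (∀ l ∈ z.support, Frame Λ W l) → z.sum (fun l c => c • apt W l) = 0 →
  z.sum (fun l c => c • φ l) = 0

/-- Part 3 (integral apartments generate). -/
def Task3 : Prop := ∀ (R K V : Type) [CommRing R] [IsDomain R] [IsPrincipalIdealRing R] [Field K]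
  [Algebra R K] [IsFractionRing R K] [AddCommGroup V] [Module K V] [Module R V]
  [IsScalarTower R K V] [FiniteDimensional K V] (N : R → ℕ), NormOk R N →
  ∀ (Λ : Submodule R V), Λ.FG → Submodule.span K (Λ : Set V) = ⊤ → ∀ (W : Submodule K V) (m : ℕ),
  m + Module.finrank K W = Module.finrank K V → ∀ z : List (Submodule K V) →₀ ℤ, IsCyc W m z →
  z ∈ Submodule.span ℤ {y | ∃ l : List V, Frame Λ W l ∧ y = apt W l}

/-- Part 6 (apartments satisfy the relations and are cycles). -/
def Task6 : Prop := ∀ (R K V : Type) [CommRing R] [IsDomain R] [Field K] [Algebra R K]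
  [IsFractionRing R K] [AddCommGroup V] [Module K V] [Module R V] [IsScalarTower R K V]
  [FiniteDimensional K V] (Λ : Submodule R V), Submodule.span K (Λ : Set V) = ⊤ →
  ∀ W : Submodule K V, Good Λ W (fun l => apt W l) ∧
    ∀ l : List V, Frame Λ W l → IsCyc W l.length (apt W l)

/-! ## group homology -/

/-- The boundaries in the group of 1-chains: generated by
`[q | p⁻¹ x] - [p q | x] + [p | x]`, `x ∈ S`. -/
noncomputable def bdry (G T : Type) [Group G] [AddCommGroup T] [DistribMulAction G T] (S : AddSubgroup T) :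
    AddSubgroup (G →₀ T) :=
  AddSubgroup.closure {y | ∃ (p q : G) (x : T), x ∈ S ∧
    y = Finsupp.single q (p⁻¹ • x) - Finsupp.single (p * q) x + Finsupp.single p x}

/-- `b` is a basis of `R^N` (the `b i` are the basis vectors). -/
def IsB {R : Type} [CommRing R] {N : ℕ} (b : Fin N → Fin N → R) : Prop :=
  IsUnit (Matrix.of b).det

/-- The relations for a function on bases: `i0`, `i1` are the first two indices. -/
structure Rels {R : Type} [CommRing R] {N : ℕ} (i0 i1 : Fin N) {A : Type} [AddCommGroup A]
    (α : (Fin N → Fin N → R) → A) : Prop where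
  perm : ∀ b, IsB b → ∀ i j : Fin N, i ≠ j → α (b ∘ Equiv.swap i j) = - α b
  unit : ∀ b, IsB b → ∀ (i : Fin N) (u : Rˣ), α (Function.update b i ((u : R) • b i)) = α b
  add : ∀ b, IsB b → α b - α (Function.update b i0 (b i0 + b i1)) +
    α (Function.update (Function.update b i0 (b i0 + b i1)) i1 (b i0)) = 0

/-- Part 4 (the homological argument). -/
def Task4 : Prop := ∀ (R : Type) [CommRing R] (N : ℕ) (hN : 5 ≤ N) (G : Type) [Group G]
  (φ : G →* Matrix.GeneralLinearGroup (Fin N) R), Function.Injective φ →
  (Set.range φ = Set.univ ∨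
    Set.range φ = {g : Matrix.GeneralLinearGroup (Fin N) R | Matrix.det g.val = 1}) →
  ∀ (T : Type) [AddCommGroup T] [DistribMulAction G T] (S : AddSubgroup T),
  (∀ (g : G) (x : T), x ∈ S → g • x ∈ S) →
  ∀ (α : (Fin N → Fin N → R) → T), (∀ b, IsB b → α b ∈ S) →
  (∀ (g : G) (b : Fin N → Fin N → R), IsB b →
    α (fun i => (φ g).val.mulVec (b i)) = g • α b) →
  Rels (⟨0, by omega⟩ : Fin N) ⟨1, by omega⟩ α →
  ∃ Ψ : (Fin N → Fin N → R) → ((G →₀ T) ⧸ bdry G T S),
    Rels (⟨0, by omega⟩ : Fin N) ⟨1, by omega⟩ Ψ ∧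
    ∀ (g : G) (b : Fin N → Fin N → R), IsB b →
      Ψ (fun i => (φ g⁻¹).val.mulVec (b i)) - Ψ b =
        QuotientAddGroup.mk (Finsupp.single g (α b))

end Pool.Agent.W31.SN
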