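import Pool.Agent.W31.SN.B4
import Pool.Agent.W605.SN.Task1
import Pool.Agent.W417.SN.Main
import Pool.Agent.W965.SN.Hom2

/-! # The assembly (S02757) -/

namespace Pool.Agent.W31.SN

open scoped BigOperators

set_option linter.unusedSectionVars false
set_option autoImplicit false

section

variable {R K : Type} [CommRing R] [IsDomain R] [Field K] [Algebra R K] [IsFractionRing R K]
  {n : ℕ} {G : Type} [Group G] (φ : G →* Matrix.GeneralLinearGroup (Fin (n + 2)) R)

/-- The boundaries. -/
noncomputable def BB : AddSubgroup (G →₀ TT K n) :=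
  AddSubgroup.closure {y | ∃ (p q : G) (x : TT K n), x ∈ SS K n ∧
    y = Finsupp.single q (ac φ p⁻¹ x) - Finsupp.single (p * q) x + Finsupp.single p x}

/-- From a boundary to a chain. -/
theorem exists_w {z : G →₀ TT K n} (hz : z ∈ BB (K := K) φ) :
    ∃ w : (G × G) →₀ TT K n, (∀ p, w p ∈ SS K n) ∧
      z = w.sum (fun p x => Finsupp.single p.2 (ac φ p.1⁻¹ x) - Finsupp.single (p.1 * p.2) x +
        Finsupp.single p.1 x) := by
  classical
  have h0 : ∀ p : G × G, (Finsupp.single p.2 (ac φ p.1⁻¹ 0) - Finsupp.single (p.1 * p.2) 0 +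
        Finsupp.single p.1 0 : G →₀ TT K n) = 0 := by
    intro p
    rw [map_zero, Finsupp.single_zero, Finsupp.single_zero, Finsupp.single_zero]
    simp
  have hadd : ∀ (p : G × G) (x y : TT K n),
      (Finsupp.single p.2 (ac φ p.1⁻¹ (x + y)) - Finsupp.single (p.1 * p.2) (x + y) +
        Finsupp.single p.1 (x + y) : G →₀ TT K n) =
      (Finsupp.single p.2 (ac φ p.1⁻¹ x) - Finsupp.single (p.1 * p.2) x +
        Finsupp.single p.1 x) + (Finsupp.single p.2 (ac φ p.1⁻¹ y) -
        Finsupp.single (p.1 * p.2) y + Finsupp.single p.1 y) := by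
    intro p x y
    rw [map_add, Finsupp.single_add, Finsupp.single_add, Finsupp.single_add]
    abel
  unfold BB at hz
  induction hz using AddSubgroup.closure_induction with
  | mem y hy =>
    obtain ⟨p, q, x, hx, rfl⟩ := hy
    refine ⟨Finsupp.single (p, q) x, ?_, ?_⟩
    · intro r
      rw [Finsupp.single_apply]
      split_ifs
      · exact hx
      · exact AddSubgroup.zero_mem _
    · rw [Finsupp.sum_single_index (h0 (p, q))]
  | zero => exact ⟨0, fun p => AddSubgroup.zero_mem _, by simp⟩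
  | add a b _ _ ha hb =>
    obtain ⟨w1, h1, rfl⟩ := ha
    obtain ⟨w2, h2, rfl⟩ := hb
    refine ⟨w1 + w2, fun p => AddSubgroup.add_mem _ (h1 p) (h2 p), ?_⟩
    rw [Finsupp.sum_add_index (fun p _ => h0 p) (fun p _ x y => hadd p x y)]
  | neg a _ ha =>
    obtain ⟨w1, h1, rfl⟩ := ha
    refine ⟨-w1, fun p => AddSubgroup.neg_mem _ (h1 p), ?_⟩
    have h2 : (w1 + -w1).sum (fun p x => Finsupp.single p.2 (ac φ p.1⁻¹ x) -
        Finsupp.single (p.1 * p.2) x + Finsupp.single p.1 x) = 0 := by
      rw [add_neg_cancel]; exact Finsupp.sum_zero_index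
    rw [Finsupp.sum_add_index (fun p _ => h0 p) (fun p _ x y => hadd p x y)] at h2
    rw [neg_eq_iff_add_eq_zero]
    exact h2

/-- The two relations over the class of a chain element. -/
theorem exists_a {C : Type} [AddCommGroup C] {N : R → ℕ} [IsPrincipalIdealRing R]
    (hN : NormOk R N) (mk : (G →₀ TT K n) →+ C)
    {Ψ : (Fin (n + 2) → Fin (n + 2) → R) → C}
    (hΨ : ∀ (g : G) (b : Fin (n + 2) → Fin (n + 2) → R), IsB b →
      Ψ (fun i => (φ g⁻¹).val.mulVec (b i)) - Ψ b = mk (Finsupp.single g (al K b)))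
    (g : G) {x : TT K n} (hx : x ∈ SS K n) :
    ∃ a : C, (a, io x) ∈ AddSubgroup.closure (pr (⊥ : Submodule K (Fin (n + 2) → K))
          (lift (K := K) Ψ) '' {l | Frame (lat R K (n + 2)) (⊥ : Submodule K (Fin (n + 2) → K)) l}) ∧
      (a + mk (Finsupp.single g x), io (ac φ g⁻¹ x)) ∈
        AddSubgroup.closure (pr (⊥ : Submodule K (Fin (n + 2) → K))
          (lift (K := K) Ψ) '' {l | Frame (lat R K (n + 2)) (⊥ : Submodule K (Fin (n + 2) → K)) l}) := by
  have hcyc := cyc_of_S hx
  have hsp := Pool.Agent.W417.SN.done' Pool.Agent.W762.SN.done R K (Fin (n + 2) → K) N hN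
    (lat R K (n + 2)) lat_fg lat_span ⊥ (n + 2) (by simp) (io x) hcyc
  have key : ∀ y ∈ Submodule.span ℤ {y | ∃ l : List (Fin (n + 2) → K),
      Frame (lat R K (n + 2)) (⊥ : Submodule K (Fin (n + 2) → K)) l ∧ y = apt ⊥ l},
      ∃ a : C, (a, y) ∈ AddSubgroup.closure (pr (⊥ : Submodule K (Fin (n + 2) → K))
          (lift (K := K) Ψ) '' {l | Frame (lat R K (n + 2)) (⊥ : Submodule K (Fin (n + 2) → K)) l}) ∧
      (a + mk (Finsupp.single g (ta y)), Finsupp.mapDomain (List.map (sm φ g⁻¹)) y) ∈
        AddSubgroup.closure (pr (⊥ : Submodule K (Fin (n + 2) → K))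
          (lift (K := K) Ψ) '' {l | Frame (lat R K (n + 2)) (⊥ : Submodule K (Fin (n + 2) → K)) l}) := by
    intro y hy
    induction hy using Submodule.span_induction with
    | mem y hy =>
      obtain ⟨l, hF, rfl⟩ := hy
      have hb := isB_mat hF
      have hl := ofB_mat hF
      set b := mat R l with hbdef
      have hgb : IsB (fun i => (φ g⁻¹).val.mulVec (b i)) := by
        unfold IsB at hb ⊢
        have h1 : Matrix.of (fun i => (φ g⁻¹).val.mulVec (b i)) =
            Matrix.of b * ((φ g⁻¹).val).transpose := by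
          ext i j
          simp [Matrix.mulVec, Matrix.mul_apply, dotProduct, mul_comm]
        rw [h1, Matrix.det_mul, Matrix.det_transpose]
        exact hb.mul ((Matrix.isUnit_iff_isUnit_det _).mp (φ g⁻¹).isUnit)
      have hF2 := frame_ofB (K := K) hgb
      refine ⟨Ψ b, ?_, ?_⟩
      · apply AddSubgroup.subset_closure
        refine ⟨l, hF, ?_⟩
        unfold pr lift
        rw [if_pos hF]
      · apply AddSubgroup.subset_closure
        refine ⟨_, hF2, ?_⟩
        unfold pr lift
        rw [if_pos hF2, mat_ofB]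
        refine Prod.ext ?_ ?_
        · have h2 := hΨ g b hb
          rw [al, hl] at h2
          change Ψ (fun i => (φ g⁻¹).val.mulVec (b i)) = _ + mk (Finsupp.single g (ta (apt ⊥ l)))
          rw [← h2]
          abel
        · change apt ⊥ (ofB K fun i => (φ g⁻¹).val.mulVec (b i)) = _
          rw [ofB_map, hl]
          have := apt_map (AA (K := K) φ g⁻¹) ⊥ l
          rw [Submodule.map_bot] at this
          exact this
    | zero =>
      refine ⟨0, AddSubgroup.zero_mem _, ?_⟩
      rw [map_zero, Finsupp.single_zero, map_zero, Finsupp.mapDomain_zero, add_zero]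
      exact AddSubgroup.zero_mem _
    | add y₁ y₂ _ _ h1 h2 =>
      obtain ⟨a1, p1, q1⟩ := h1
      obtain ⟨a2, p2, q2⟩ := h2
      refine ⟨a1 + a2, AddSubgroup.add_mem _ p1 p2, ?_⟩
      have := AddSubgroup.add_mem _ q1 q2
      rw [Prod.mk_add_mk, ← Finsupp.mapDomain_add] at this
      rw [map_add, Finsupp.single_add, map_add]
      convert this using 2
      abel
    | smul c y _ h1 =>
      obtain ⟨a1, p1, q1⟩ := h1
      refine ⟨c • a1, AddSubgroup.zsmul_mem _ p1 c, ?_⟩
      have := AddSubgroup.zsmul_mem _ q1 c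
      rw [Prod.smul_mk, ← Finsupp.mapDomain_smul, smul_add] at this
      have e : mk (Finsupp.single g (ta (c • y))) = c • mk (Finsupp.single g (ta y)) := by
        rw [map_zsmul ta, ← Finsupp.smul_single, map_zsmul]
      rw [e]
      exact this
  obtain ⟨a, h1, h2⟩ := key _ hsp
  refine ⟨a, h1, ?_⟩
  rw [ta_io] at h2
  rw [io_ac]
  exact h2

theorem final {N : R → ℕ} [IsPrincipalIdealRing R] (hn : 3 ≤ n) (hN : NormOk R N)
    (hφ : Function.Injective φ)
    (hr : Set.range φ = Set.univ ∨
      Set.range φ = {g : Matrix.GeneralLinearGroup (Fin (n + 2)) R | Matrix.det g.val = 1})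
    (z : G →₀ TT K n) (hz : ∀ g, z g ∈ SS K n)
    (h0 : z.sum (fun g x => ac φ g⁻¹ x - x) = 0) : z ∈ BB (K := K) φ := by
  classical
  let inst : DistribMulAction G (TT K n) := act φ
  have hsm : ∀ (g : G) (x : TT K n), g • x = ac φ g x := fun _ _ => rfl
  obtain ⟨Ψ, hΨ1, hΨ2⟩ := Pool.Agent.W965.SN.done R (n + 2) (by omega) G φ hφ hr (TT K n) (SS K n)
    (fun g x hx => ac_SS φ g hx) (al K) (fun b hb => al_mem hb)
    (fun g b _ => al_equi φ g b) al_rels
  have hb : bdry G (TT K n) (SS K n) = BB (K := K) φ := rfl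
  have hgood := good_lift (K := K) hΨ1
  have hex := fun g : G => exists_a (K := K) φ hN
    (QuotientAddGroup.mk' (bdry G (TT K n) (SS K n))) hΨ2 g (hz g)
  choose a ha1 ha2 using hex
  have h1 : (∑ g ∈ z.support, (QuotientAddGroup.mk' (bdry G (TT K n) (SS K n)))
      (Finsupp.single g (z g)), io (∑ g ∈ z.support, (ac φ g⁻¹ (z g) - z g))) ∈
      AddSubgroup.closure (pr (⊥ : Submodule K (Fin (n + 2) → K))
          (lift (K := K) Ψ) '' {l | Frame (lat R K (n + 2)) (⊥ : Submodule K (Fin (n + 2) → K)) l}) := by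
    have h2 : (∑ g ∈ z.support, (QuotientAddGroup.mk' (bdry G (TT K n) (SS K n)))
        (Finsupp.single g (z g)), io (∑ g ∈ z.support, (ac φ g⁻¹ (z g) - z g))) =
        ∑ g ∈ z.support, ((a g + (QuotientAddGroup.mk' (bdry G (TT K n) (SS K n)))
          (Finsupp.single g (z g)), io (ac φ g⁻¹ (z g))) - (a g, io (z g))) := by
      refine Prod.ext ?_ ?_
      · rw [Prod.fst_sum]
        refine Finset.sum_congr rfl fun g _ => ?_
        simp
      · rw [Prod.snd_sum]
        simp only [map_sum, map_sub]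
        refine Finset.sum_congr rfl fun g _ => ?_
        simp
    rw [h2]
    exact AddSubgroup.sum_mem _ fun g _ => AddSubgroup.sub_mem _ (ha2 g) (ha1 g)
  have h2 : ∑ g ∈ z.support, (ac φ g⁻¹ (z g) - z g) = 0 := h0
  rw [h2, map_zero] at h1
  have h3 := main_all lat_span hN (n + 2) ⊥ (by simp) _ _ hgood _ h1
  rw [← map_sum] at h3
  have h4 : ∑ g ∈ z.support, Finsupp.single g (z g) = z := Finsupp.sum_single z
  rw [h4] at h3
  exact (QuotientAddGroup.eq_zero_iff _).mp h3

end

end Pool.Agent.W31.SN
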