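import Pool.Agent.W31.SN.Defs

/-! # Frames (S02757) -/

namespace Pool.Agent.W31.SN

open scoped BigOperators

set_option linter.unusedSectionVars false

section

variable {R K V : Type} [CommRing R] [IsDomain R] [Field K] [Algebra R K] [IsFractionRing R K]
  [AddCommGroup V] [Module K V] [Module R V] [IsScalarTower R K V] [FiniteDimensional K V]

/-- `v` is a primitive vector of the lattice modulo `W`. -/
def Prim (Λ : Submodule R V) (W : Submodule K V) (v : V) : Prop :=
  v ∈ Λ ∧ v ∉ W ∧ ∀ x ∈ Λ, x ∈ W ⊔ Submodule.span K {v} → ∃ c : R, x - c • v ∈ W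

theorem smulR (c : R) (x : V) : c • x = (algebraMap R K c) • x := by
  rw [algebraMap_smul]

theorem mem_smulR {W : Submodule K V} {x : V} (c : R) (hx : x ∈ W) : c • x ∈ W := by
  rw [smulR (K := K)]; exact W.smul_mem _ hx

theorem finrank_sup_le (W : Submodule K V) (l : List V) :
    Module.finrank K (W ⊔ Submodule.span K {x | x ∈ l} : Submodule K V) ≤
      Module.finrank K W + l.length := by
  classical
  refine (Submodule.finrank_add_le_finrank_add_finrank W _).trans ?_
  have h1 : {x | x ∈ l} = (l.toFinset : Set V) := by ext; simp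
  rw [h1]
  exact Nat.add_le_add_left ((finrank_span_finset_le_card _).trans (List.toFinset_card_le l)) _

theorem finrank_sup_one {W : Submodule K V} {v : V} (hv : v ∉ W) :
    Module.finrank K (W ⊔ Submodule.span K {v} : Submodule K V) = Module.finrank K W + 1 := by
  have h := Submodule.finrank_sup_add_finrank_inf_eq W (Submodule.span K {v})
  have hv0 : v ≠ 0 := fun h => hv (h ▸ W.zero_mem)
  rw [finrank_span_singleton hv0] at h
  have h2 : W ⊓ Submodule.span K {v} = ⊥ := by
    rw [eq_bot_iff]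
    rintro x ⟨hx1, hx2⟩
    obtain ⟨a, rfl⟩ := Submodule.mem_span_singleton.mp hx2
    by_cases ha : a = 0
    · simp [ha]
    · exact absurd ((W.smul_mem_iff ha).mp hx1) hv
  rw [h2, finrank_bot] at h
  omega

theorem span_set_cons (v : V) (l : List V) :
    Submodule.span R {x | x ∈ v :: l} = Submodule.span R {v} ⊔ Submodule.span R {x | x ∈ l} := by
  rw [← Submodule.span_union]
  congr 1
  ext x
  simp

/-- elements of `W + span_R l` -/
theorem mem_decomp {W : Submodule K V} {s : Set V} {x : V} :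
    x ∈ W.restrictScalars R ⊔ Submodule.span R s ↔
      ∃ w ∈ W, ∃ y ∈ Submodule.span R s, w + y = x := by
  rw [Submodule.mem_sup]
  constructor
  · rintro ⟨a, ha, b, hb, rfl⟩
    exact ⟨a, ha, b, hb, rfl⟩
  · rintro ⟨a, ha, b, hb, rfl⟩
    exact ⟨a, ha, b, hb, rfl⟩

theorem span_le_span (s : Set V) {y : V} (hy : y ∈ Submodule.span R s) :
    y ∈ Submodule.span K s := by
  have : Submodule.span R s ≤ (Submodule.span K s).restrictScalars R :=
    Submodule.span_le.mpr Submodule.subset_span
  exact this hy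

theorem Frame.top {Λ : Submodule R V} (hΛ : Submodule.span K (Λ : Set V) = ⊤)
    {W : Submodule K V} {l : List V} (h : Frame Λ W l) :
    W ⊔ Submodule.span K {x | x ∈ l} = ⊤ := by
  rw [eq_top_iff, ← hΛ, Submodule.span_le]
  intro x hx
  obtain ⟨w, hw, y, hy, rfl⟩ := mem_decomp.mp (h.2.1 hx)
  exact Submodule.add_mem_sup hw (span_le_span _ hy)

theorem Frame.notMem {Λ : Submodule R V} (hΛ : Submodule.span K (Λ : Set V) = ⊤)
    {W : Submodule K V} {v : V} {l : List V} (h : Frame Λ W (v :: l)) :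
    v ∉ W ⊔ Submodule.span K {x | x ∈ l} := by
  intro hv
  have h1 := h.top hΛ
  rw [span_set_cons, sup_comm (Submodule.span K {v}), ← sup_assoc,
    sup_eq_left.mpr (by rwa [Submodule.span_singleton_le_iff_mem])] at h1
  have h2 := finrank_sup_le W l
  rw [h1, finrank_top] at h2
  have h3 := h.2.2
  simp only [List.length_cons] at h3
  omega

theorem Frame.congr_perm {Λ : Submodule R V} {W : Submodule K V} {l l' : List V}
    (h : Frame Λ W l) (hp : l.Perm l') : Frame Λ W l' := by
  refine ⟨fun x hx => h.1 x (hp.mem_iff.mpr hx), ?_, ?_⟩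
  · have : {x | x ∈ l'} = {x | x ∈ l} := by ext x; exact hp.mem_iff.symm
    rw [this]; exact h.2.1
  · rw [← hp.length_eq]; exact h.2.2

theorem Frame.mono {Λ : Submodule R V} {W : Submodule K V} {l l' : List V}
    (h : Frame Λ W l) (hlen : l'.length = l.length) (hm : ∀ x ∈ l', x ∈ Λ)
    (hs : ∀ x ∈ l, x ∈ W.restrictScalars R ⊔ Submodule.span R {x | x ∈ l'}) : Frame Λ W l' := by
  refine ⟨hm, h.2.1.trans (sup_le le_sup_left ?_), by rw [hlen]; exact h.2.2⟩
  rw [Submodule.span_le]
  exact fun x hx => hs x hx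

theorem frame_cons_iff {Λ : Submodule R V} (hΛ : Submodule.span K (Λ : Set V) = ⊤)
    {W : Submodule K V} {v : V} {l : List V} :
    Frame Λ W (v :: l) ↔ Prim Λ W v ∧ Frame Λ (W ⊔ Submodule.span K {v}) l := by
  constructor
  · intro h
    have hv := h.notMem hΛ
    have hvW : v ∉ W := fun hh => hv (Submodule.mem_sup_left hh)
    refine ⟨⟨h.1 v (by simp), hvW, ?_⟩, ?_, ?_, ?_⟩
    · intro x hx hxv
      obtain ⟨w, hw, y, hy, hwy⟩ := Submodule.mem_sup.mp hxv
      obtain ⟨a, rfl⟩ := Submodule.mem_span_singleton.mp hy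
      obtain ⟨w', hw', y', hy', hwy'⟩ := mem_decomp.mp (h.2.1 hx)
      rw [span_set_cons] at hy'
      obtain ⟨cv, hcv, s, hs, rfl⟩ := Submodule.mem_sup.mp hy'
      obtain ⟨c, rfl⟩ := Submodule.mem_span_singleton.mp hcv
      refine ⟨c, ?_⟩
      have hac : a = algebraMap R K c := by
        by_contra hne
        apply hv
        have h2 : (a - algebraMap R K c) • v = (w' - w) + s := by
          rw [sub_smul, algebraMap_smul]
          have : w + a • v = w' + (c • v + s) := by rw [hwy, hwy']
          have h3 : a • v = w' + (c • v + s) - w := by rw [← this]; abel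
          rw [h3]; abel
        have h3 : (a - algebraMap R K c) • v ∈ W ⊔ Submodule.span K {x | x ∈ l} := by
          rw [h2]
          exact Submodule.add_mem_sup (W.sub_mem hw' hw) (span_le_span _ hs)
        exact (Submodule.smul_mem_iff _ (sub_ne_zero.mpr hne)).mp h3
      rw [← hwy, hac, algebraMap_smul, add_sub_cancel_right]
      exact hw
    · exact fun x hx => h.1 x (by simp [hx])
    · intro x hx
      obtain ⟨w', hw', y', hy', rfl⟩ := mem_decomp.mp (h.2.1 hx)
      rw [span_set_cons] at hy'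
      obtain ⟨cv, hcv, s, hs, rfl⟩ := Submodule.mem_sup.mp hy'
      rw [mem_decomp]
      refine ⟨w' + cv, Submodule.add_mem_sup hw' (span_le_span _ hcv), s, hs, by abel⟩
    · rw [finrank_sup_one hvW]
      have := h.2.2
      simp only [List.length_cons] at this
      omega
  · rintro ⟨⟨hv, hvW, hp⟩, h⟩
    refine ⟨?_, ?_, ?_⟩
    · intro x hx
      rcases List.mem_cons.mp hx with rfl | hx
      · exact hv
      · exact h.1 x hx
    · intro x hx
      obtain ⟨w', hw', s, hs, hx'⟩ := mem_decomp.mp (h.2.1 hx)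
      have hsΛ : s ∈ Λ := (Submodule.span_le.mpr (fun y hy => h.1 y hy)) hs
      have hxs : x - s ∈ Λ := Λ.sub_mem hx hsΛ
      obtain ⟨c, hc⟩ := hp (x - s) hxs (by rw [← hx', add_sub_cancel_right]; exact hw')
      rw [mem_decomp]
      refine ⟨x - s - c • v, hc, c • v + s, ?_, by abel⟩
      rw [span_set_cons]
      exact Submodule.add_mem_sup (Submodule.smul_mem _ _ (Submodule.mem_span_singleton_self v)) hs
    · have := h.2.2
      rw [finrank_sup_one hvW] at this
      simp only [List.length_cons]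
      omega

/-- Two primitive vectors on the same line differ by a unit. -/
theorem Prim.unit {Λ : Submodule R V} {W : Submodule K V} {v x : V} (hv : Prim Λ W v)
    (hx : Prim Λ W x) (hL : W ⊔ Submodule.span K {x} = W ⊔ Submodule.span K {v}) :
    ∃ u : Rˣ, x - (u : R) • v ∈ W := by
  obtain ⟨c, hc⟩ := hv.2.2 x hx.1 (by
    rw [← hL]; exact Submodule.mem_sup_right (Submodule.mem_span_singleton_self x))
  obtain ⟨d, hd⟩ := hx.2.2 v hv.1 (by
    rw [hL]; exact Submodule.mem_sup_right (Submodule.mem_span_singleton_self v))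
  have h1 : (1 - d * c) • v ∈ W := by
    have h2 : (1 - d * c) • v = (v - d • x) + d • (x - c • v) := by
      rw [sub_smul, one_smul, mul_smul, smul_sub]; abel
    rw [h2]
    exact W.add_mem hd (mem_smulR d hc)
  have h3 : d * c = 1 := by
    by_contra hne
    rw [smulR (K := K)] at h1
    have h4 : algebraMap R K (1 - d * c) ≠ 0 := by
      rw [Ne, IsFractionRing.to_map_eq_zero_iff (K := K)]
      exact sub_ne_zero.mpr (Ne.symm hne)
    exact hv.2.1 ((W.smul_mem_iff h4).mp h1)
  exact ⟨⟨c, d, by rw [mul_comm]; exact h3, h3⟩, hc⟩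

/-- The dual coordinate of the first vector of a frame. -/
theorem Frame.exists_dual {Λ : Submodule R V} (hΛ : Submodule.span K (Λ : Set V) = ⊤)
    {W : Submodule K V} {v : V} {l : List V} (h : Frame Λ W (v :: l)) :
    ∃ ℓ : V →ₗ[K] K, W ≤ LinearMap.ker ℓ ∧ ℓ ≠ 0 ∧
      ∀ x ∈ Λ, ∃ r : R, ℓ x = algebraMap R K r := by
  obtain ⟨f, hf1, hf2⟩ := Submodule.exists_le_ker_of_notMem (h.notMem hΛ)
  have hker : W ⊔ Submodule.span K {x | x ∈ l} ≤ LinearMap.ker ((f v)⁻¹ • f) := by
    refine hf2.trans ?_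
    intro x hx
    rw [LinearMap.mem_ker] at hx ⊢
    simp [hx]
  have hv : ((f v)⁻¹ • f) v = 1 := by
    simp [hf1]
  refine ⟨(f v)⁻¹ • f, le_sup_left.trans hker, ?_, ?_⟩
  · intro h0
    rw [h0] at hv
    simp at hv
  · intro x hx
    obtain ⟨w', hw', y', hy', rfl⟩ := mem_decomp.mp (h.2.1 hx)
    rw [span_set_cons] at hy'
    obtain ⟨cv, hcv, s, hs, rfl⟩ := Submodule.mem_sup.mp hy'
    obtain ⟨c, rfl⟩ := Submodule.mem_span_singleton.mp hcv
    refine ⟨c, ?_⟩
    have e1 : ((f v)⁻¹ • f) w' = 0 := hker (Submodule.mem_sup_left hw')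
    have e2 : ((f v)⁻¹ • f) s = 0 := hker (Submodule.mem_sup_right (span_le_span _ hs))
    rw [map_add, map_add, e1, e2, smulR (K := K), map_smul, hv]
    simp

end

end Pool.Agent.W31.SN
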