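import Pool.Agent.W31.SN.A1

/-! # Good functions and the level (S02757) -/

namespace Pool.Agent.W31.SN

open scoped BigOperators

set_option linter.unusedSectionVars false

section

variable {R K V : Type} [CommRing R] [IsDomain R] [Field K] [Algebra R K] [IsFractionRing R K]
  [AddCommGroup V] [Module K V] [Module R V] [IsScalarTower R K V] [FiniteDimensional K V]

theorem mem_of_unit_smul {S : Submodule R V} (u : Rˣ) {y : V} (h : (u : R) • y ∈ S) : y ∈ S := by
  have := S.smul_mem ((u⁻¹ : Rˣ) : R) h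
  rwa [smul_smul, Units.inv_mul, one_smul] at this

theorem mem_sup_of_mem {W : Submodule K V} {l : List V} {x : V} (hx : x ∈ l) :
    x ∈ W.restrictScalars R ⊔ Submodule.span R {x | x ∈ l} :=
  Submodule.mem_sup_right (Submodule.subset_span hx)

theorem mem_sup_of_memW {W : Submodule K V} {s : Set V} {x : V} (hx : x ∈ W) :
    x ∈ W.restrictScalars R ⊔ Submodule.span R s :=
  Submodule.mem_sup_left (by simpa using hx)

/-- Replace one vector of a frame. -/
theorem Frame.replace {Λ : Submodule R V} {W : Submodule K V} {v x x' : V} {p r : List V} {c : R}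
    (h : Frame Λ W (v :: (p ++ x :: r))) (hx' : x' ∈ Λ) (hw : x' - (x - c • v) ∈ W) :
    Frame Λ W (v :: (p ++ x' :: r)) := by
  refine h.mono (by simp) ?_ ?_
  · intro y hy
    simp only [List.mem_cons, List.mem_append] at hy
    rcases hy with rfl | hy | rfl | hy
    · exact h.1 _ (by simp)
    · exact h.1 _ (by simp [hy])
    · exact hx'
    · exact h.1 _ (by simp [hy])
  · intro y hy
    simp only [List.mem_cons, List.mem_append] at hy
    rcases hy with rfl | hy | rfl | hy
    · exact mem_sup_of_mem (by simp)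
    · exact mem_sup_of_mem (by simp [hy])
    · have h1 : y = x' + (c • v - (x' - (y - c • v))) := by abel
      rw [h1]
      refine Submodule.add_mem _ (mem_sup_of_mem (by simp)) (Submodule.sub_mem _ ?_ ?_)
      · exact Submodule.smul_mem _ _ (mem_sup_of_mem (by simp))
      · exact mem_sup_of_memW hw
    · exact mem_sup_of_mem (by simp [hy])

/-- The level of a vector. -/
noncomputable def lvl (R : Type) {K V : Type} [CommRing R] [Field K] [Algebra R K]
    [AddCommGroup V] [Module K V] (ℓ : V →ₗ[K] K) (x : V) : R :=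
  open Classical in if h : ∃ r : R, ℓ x = algebraMap R K r then h.choose else 0

theorem lvl_eq {ℓ : V →ₗ[K] K} {x : V} {r : R} (h : ℓ x = algebraMap R K r) : lvl R ℓ x = r := by
  have h' : ∃ r : R, ℓ x = algebraMap R K r := ⟨r, h⟩
  rw [lvl, dif_pos h']
  exact IsFractionRing.injective R K (by rw [← h'.choose_spec, h])

theorem lvl_congr {ℓ : V →ₗ[K] K} {x y : V} (h : ℓ x = ℓ y) : lvl R ℓ x = lvl R ℓ y := by
  unfold lvl
  rw [h]

theorem algebraMap_lvl {ℓ : V →ₗ[K] K} {Λ : Submodule R V}
    (hℓ : ∀ x ∈ Λ, ∃ r : R, ℓ x = algebraMap R K r) {x : V} (hx : x ∈ Λ) :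
    ℓ x = algebraMap R K (lvl R ℓ x) := by
  obtain ⟨r, hr⟩ := hℓ x hx
  rw [lvl_eq hr, hr]

theorem lvl_sub_smul {ℓ : V →ₗ[K] K} {Λ : Submodule R V}
    (hℓ : ∀ x ∈ Λ, ∃ r : R, ℓ x = algebraMap R K r) {x v : V} (hx : x ∈ Λ) (hv : v ∈ Λ) (c : R) :
    lvl R ℓ (x - c • v) = lvl R ℓ x - c * lvl R ℓ v := by
  apply lvl_eq
  rw [map_sub, smulR (K := K), map_smul, algebraMap_lvl hℓ hx, algebraMap_lvl hℓ hv]
  simp

theorem lvl_add {ℓ : V →ₗ[K] K} {Λ : Submodule R V}
    (hℓ : ∀ x ∈ Λ, ∃ r : R, ℓ x = algebraMap R K r) {x v : V} (hx : x ∈ Λ) (hv : v ∈ Λ) :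
    lvl R ℓ (x + v) = lvl R ℓ x + lvl R ℓ v := by
  apply lvl_eq
  rw [map_add, algebraMap_lvl hℓ hx, algebraMap_lvl hℓ hv]
  simp

theorem lvl_smul {ℓ : V →ₗ[K] K} {Λ : Submodule R V}
    (hℓ : ∀ x ∈ Λ, ∃ r : R, ℓ x = algebraMap R K r) {v : V} (hv : v ∈ Λ) (c : R) :
    lvl R ℓ (c • v) = c * lvl R ℓ v := by
  apply lvl_eq
  rw [smulR (K := K), map_smul, algebraMap_lvl hℓ hv]
  simp

section good

variable {Λ : Submodule R V} {W : Submodule K V} {B : Type} [AddCommGroup B] {θ : List V → B}

theorem Good.move (hθ : Good Λ W θ) : ∀ (l₁ p : List V) (x : V) (l₂ : List V),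
    Frame Λ W (p ++ (l₁ ++ x :: l₂)) →
    θ (p ++ (l₁ ++ x :: l₂)) = (-1 : ℤ) ^ l₁.length • θ (p ++ x :: (l₁ ++ l₂)) := by
  intro l₁
  induction l₁ with
  | nil => intro p x l₂ _; simp
  | cons y l₁ ih =>
    intro p x l₂ h
    have h1 := ih (p ++ [y]) x l₂ (by simpa using h)
    have hF : Frame Λ W (p ++ x :: y :: (l₁ ++ l₂)) := by
      refine h.congr_perm (List.Perm.append_left p ?_)
      refine (List.Perm.cons y ?_).trans (List.Perm.swap x y (l₁ ++ l₂))
      exact List.perm_middle
    have h2 := hθ.perm p x y (l₁ ++ l₂) hF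
    simp only [List.append_assoc, List.cons_append, List.nil_append] at h1 ⊢
    rw [h1, h2]
    simp [pow_succ]

theorem Good.inv' (hθ : Good Λ W θ) (p : List V) (h x : V) (l : List V) (hΛ : h ∈ Λ) (hW : h ∈ W)
    (hF : Frame Λ W (p ++ x :: l)) : θ (p ++ (x + h) :: l) = θ (p ++ x :: l) := by
  have hF2 : Frame Λ W (x :: (p ++ l)) := hF.congr_perm List.perm_middle
  have hF3 : Frame Λ W ((x + h) :: (p ++ l)) := by
    refine hF2.mono (by simp) ?_ ?_
    · intro y hy
      rcases List.mem_cons.mp hy with rfl | hy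
      · exact Λ.add_mem (hF2.1 x (by simp)) hΛ
      · exact hF2.1 y (by simp at hy ⊢; tauto)
    · intro y hy
      rcases List.mem_cons.mp hy with rfl | hy
      · have h1 : y = (y + h) - h := by abel
        rw [h1]
        exact Submodule.sub_mem _ (mem_sup_of_mem (by simp)) (mem_sup_of_memW hW)
      · exact mem_sup_of_mem (by simp at hy ⊢; tauto)
  have hF4 : Frame Λ W (p ++ (x + h) :: l) := hF3.congr_perm List.perm_middle.symm
  have e1 := hθ.move p [] x l (by simpa using hF)
  have e2 := hθ.move p [] (x + h) l (by simpa using hF4)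
  simp only [List.nil_append] at e1 e2
  rw [e1, e2, hθ.inv h x (p ++ l) hΛ hW hF2]

theorem Good.unit' (hθ : Good Λ W θ) (p : List V) (u : Rˣ) (x : V) (l : List V)
    (hF : Frame Λ W (p ++ x :: l)) : θ (p ++ (u : R) • x :: l) = θ (p ++ x :: l) := by
  have hF2 : Frame Λ W (x :: (p ++ l)) := hF.congr_perm List.perm_middle
  have hF3 : Frame Λ W ((u : R) • x :: (p ++ l)) := by
    refine hF2.mono (by simp) ?_ ?_
    · intro y hy
      rcases List.mem_cons.mp hy with rfl | hy
      · exact Λ.smul_mem _ (hF2.1 x (by simp))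
      · exact hF2.1 y (by simp at hy ⊢; tauto)
    · intro y hy
      rcases List.mem_cons.mp hy with rfl | hy
      · exact mem_of_unit_smul u (mem_sup_of_mem (by simp))
      · exact mem_sup_of_mem (by simp at hy ⊢; tauto)
  have hF4 : Frame Λ W (p ++ (u : R) • x :: l) := hF3.congr_perm List.perm_middle.symm
  have e1 := hθ.move p [] x l (by simpa using hF)
  have e2 := hθ.move p [] ((u : R) • x) l (by simpa using hF4)
  simp only [List.nil_append] at e1 e2
  rw [e1, e2, hθ.unit u x (p ++ l) hF2]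

theorem Good.one_step (hθ : Good Λ W θ) {v x : V} {r : List V} (u : Rˣ)
    (hF : Frame Λ W (v :: x :: r)) :
    θ (v :: x :: r) - θ (v :: (x - (u : R) • v) :: r) = - θ (x :: (x - (u : R) • v) :: r) := by
  have hvΛ : v ∈ Λ := hF.1 v (by simp)
  have hxΛ : x ∈ Λ := hF.1 x (by simp)
  have hy : x - (u : R) • v ∈ Λ := Λ.sub_mem hxΛ (Λ.smul_mem _ hvΛ)
  have hF1 : Frame Λ W (v :: (x - (u : R) • v) :: r) := by
    have := Frame.replace (p := []) (c := (u : R)) (x' := x - (u : R) • v) hF hy (by simp)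
    simpa using this
  have hF2 : Frame Λ W ((u : R) • v :: (x - (u : R) • v) :: r) := by
    refine hF1.mono (by simp) ?_ ?_
    · intro z hz
      rcases List.mem_cons.mp hz with rfl | hz
      · exact Λ.smul_mem _ hvΛ
      · exact hF1.1 z (by simp [List.mem_cons.mp hz])
    · intro z hz
      rcases List.mem_cons.mp hz with rfl | hz
      · exact mem_of_unit_smul u (mem_sup_of_mem (by simp))
      · exact mem_sup_of_mem (List.mem_cons_of_mem _ hz)
  have hF3 : Frame Λ W ((x - (u : R) • v) :: (u : R) • v :: r) :=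
    hF2.congr_perm (List.Perm.swap _ _ _)
  have hF4 : Frame Λ W (x :: v :: r) := hF.congr_perm (List.Perm.swap _ _ _)
  have hF5 : Frame Λ W (x :: (u : R) • v :: r) := by
    refine hF4.mono (by simp) ?_ ?_
    · intro z hz
      simp only [List.mem_cons] at hz
      rcases hz with rfl | rfl | hz
      · exact hxΛ
      · exact Λ.smul_mem _ hvΛ
      · exact hF.1 z (by simp [hz])
    · intro z hz
      simp only [List.mem_cons] at hz
      rcases hz with rfl | rfl | hz
      · exact mem_sup_of_mem (by simp)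
      · exact mem_of_unit_smul u (mem_sup_of_mem (by simp))
      · exact mem_sup_of_mem (by simp [hz])
  have a1 := hθ.add (x - (u : R) • v) ((u : R) • v) r hF3
  rw [sub_add_cancel] at a1
  have a2 := hθ.perm [] (x - (u : R) • v) ((u : R) • v) r hF3
  have a3 := hθ.perm [] x ((u : R) • v) r hF5
  have a4 := hθ.unit u v ((x - (u : R) • v) :: r) hF1
  have a5 := hθ.unit u v (x :: r) hF
  simp only [List.nil_append] at a2 a3
  rw [← a4, ← a5, a2, a3]
  rw [sub_neg_eq_add, neg_add_eq_sub]
  rw [← sub_eq_zero, sub_neg_eq_add]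
  exact a1

end good

end

end Pool.Agent.W31.SN
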