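import Pool.Agent.W31.SN.A2

/-! # Changing representatives (S02757) -/

namespace Pool.Agent.W31.SN

open scoped BigOperators

set_option linter.unusedSectionVars false

section

variable {R K V : Type} [CommRing R] [IsDomain R] [Field K] [Algebra R K] [IsFractionRing R K]
  [AddCommGroup V] [Module K V] [Module R V] [IsScalarTower R K V] [FiniteDimensional K V]

/-- The subgroup generated by the values at the frames all of whose vectors satisfy `P`. -/
def KU (Λ : Submodule R V) (W : Submodule K V) {B : Type} [AddCommGroup B] (θ : List V → B)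
    (P : V → Prop) : AddSubgroup B :=
  AddSubgroup.closure (θ '' {l | Frame Λ W l ∧ ∀ x ∈ l, P x})

variable {Λ : Submodule R V} {W : Submodule K V} {B : Type} [AddCommGroup B] {θ : List V → B}

theorem mem_KU {P : V → Prop} {l : List V} (h : Frame Λ W l) (hP : ∀ x ∈ l, P x) :
    θ l ∈ KU Λ W θ P :=
  AddSubgroup.subset_closure ⟨l, ⟨h, hP⟩, rfl⟩

/-- The data around a primitive vector `v` of positive level. -/
structure Ctx (Λ : Submodule R V) (W : Submodule K V) (θ : List V → B) (N : R → ℕ)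
    (ℓ : V →ₗ[K] K) (v : V) (P : V → Prop) : Prop where
  good : Good Λ W θ
  norm : NormOk R N
  hΛ : Submodule.span K (Λ : Set V) = ⊤
  hW : W ≤ LinearMap.ker ℓ
  hℓ : ∀ x ∈ Λ, ∃ r : R, ℓ x = algebraMap R K r
  prim : Prim Λ W v
  pos : lvl R ℓ v ≠ 0
  hP1 : ∀ x ∈ Λ, N (lvl R ℓ x) < N (lvl R ℓ v) → P x
  hP2 : ∀ x, P x → N (lvl R ℓ x) ≤ N (lvl R ℓ v)

variable {N : R → ℕ} {ℓ : V →ₗ[K] K} {v : V} {P : V → Prop}

theorem Ctx.chain (C : Ctx Λ W θ N ℓ v P) {x : V} {r : List V} (hF : Frame Λ W (v :: x :: r))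
    (hx : P x) (hr : ∀ y ∈ r, P y) {b : R}
    (hb : Relation.ReflTransGen (Step N (lvl R ℓ v)) (lvl R ℓ x) b) :
    ∃ c : R, b = lvl R ℓ x - c * lvl R ℓ v ∧ P (x - c • v) ∧
      θ (v :: x :: r) - θ (v :: (x - c • v) :: r) ∈ KU Λ W θ P := by
  have hxΛ : x ∈ Λ := hF.1 x (by simp)
  have hvΛ : v ∈ Λ := hF.1 v (by simp)
  induction hb with
  | refl => exact ⟨0, by simp, by simpa using hx, by simp⟩
  | @tail b' b'' _ h2 ih =>
    obtain ⟨c, hc1, hc2, hc3⟩ := ih
    obtain ⟨hN, u, hu⟩ := h2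
    have hΛ' : x - c • v ∈ Λ := Λ.sub_mem hxΛ (Λ.smul_mem _ hvΛ)
    have e : x - (c + u) • v = (x - c • v) - (u : R) • v := by
      rw [add_smul]; abel
    have hb'' : b'' = lvl R ℓ x - (c + u) * lvl R ℓ v := by rw [hu, hc1]; ring
    have hlv : lvl R ℓ (x - (c + u) • v) = b'' := by
      rw [lvl_sub_smul C.hℓ hxΛ hvΛ, hb'']
    have hP : P (x - (c + u) • v) :=
      C.hP1 _ (Λ.sub_mem hxΛ (Λ.smul_mem _ hvΛ)) (by rw [hlv]; exact hN)
    refine ⟨c + u, hb'', hP, ?_⟩
    have hF' : Frame Λ W (v :: (x - c • v) :: r) := by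
      have := Frame.replace (p := []) (c := c) (x' := x - c • v) hF hΛ' (by simp)
      simpa using this
    have h1 := C.good.one_step u hF'
    have h3 : θ ((x - c • v) :: (x - (c + u) • v) :: r) ∈ KU Λ W θ P := by
      apply mem_KU
      · have h4 : Frame Λ W ((x - c • v) :: v :: r) := hF'.congr_perm (List.Perm.swap _ _ _)
        refine h4.mono (by simp) ?_ ?_
        · intro z hz
          simp only [List.mem_cons] at hz
          rcases hz with rfl | rfl | hz
          · exact hΛ'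
          · exact Λ.sub_mem hxΛ (Λ.smul_mem _ hvΛ)
          · exact hF.1 z (by simp [hz])
        · intro z hz
          simp only [List.mem_cons] at hz
          rcases hz with rfl | rfl | hz
          · exact mem_sup_of_mem (by simp)
          · apply mem_of_unit_smul u
            have h5 : (u : R) • z = (x - c • z) - (x - (c + u) • z) := by rw [add_smul]; abel
            rw [h5]
            exact Submodule.sub_mem _ (mem_sup_of_mem (by simp)) (mem_sup_of_mem (by simp))
          · exact mem_sup_of_mem (by simp [hz])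
      · intro z hz
        simp only [List.mem_cons] at hz
        rcases hz with rfl | rfl | hz
        · exact hc2
        · exact hP
        · exact hr z hz
    have h6 : θ (v :: x :: r) - θ (v :: (x - (c + u) • v) :: r) =
        (θ (v :: x :: r) - θ (v :: (x - c • v) :: r)) +
        (θ (v :: (x - c • v) :: r) - θ (v :: (x - c • v - (u : R) • v) :: r)) := by
      rw [e]; abel
    rw [h6, h1, ← e]
    exact AddSubgroup.add_mem _ hc3 (AddSubgroup.neg_mem _ h3)

theorem Ctx.change1 (C : Ctx Λ W θ N ℓ v P) {x : V} {r : List V} (hF : Frame Λ W (v :: x :: r))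
    (hx : P x) (hr : ∀ y ∈ r, P y) {c : R} (hc : N (lvl R ℓ (x - c • v)) < N (lvl R ℓ v)) :
    θ (v :: x :: r) - θ (v :: (x - c • v) :: r) ∈ KU Λ W θ P := by
  have hxΛ : x ∈ Λ := hF.1 x (by simp)
  have hvΛ : v ∈ Λ := hF.1 v (by simp)
  have hb := C.norm.conn (lvl R ℓ v) (lvl R ℓ x) (lvl R ℓ (x - c • v)) C.pos (C.hP2 x hx) hc
    ⟨c, by rw [lvl_sub_smul C.hℓ hxΛ hvΛ]; ring⟩
  obtain ⟨c', h1, _, h3⟩ := C.chain hF hx hr hb
  rw [lvl_sub_smul C.hℓ hxΛ hvΛ] at h1
  have : c = c' := by
    have h4 : c * lvl R ℓ v = c' * lvl R ℓ v := by linear_combination -h1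
    exact mul_right_cancel₀ C.pos h4
  rw [this]; exact h3

theorem Ctx.change2 (C : Ctx Λ W θ N ℓ v P) {p : List V} {x x' : V} {r : List V}
    (hF : Frame Λ W (v :: (p ++ x :: r))) (hx : P x) (hp : ∀ y ∈ p, P y) (hr : ∀ y ∈ r, P y)
    {c : R} (hx' : x' ∈ Λ) (hc : x' - (x - c • v) ∈ W) (hN : N (lvl R ℓ x') < N (lvl R ℓ v)) :
    θ (v :: (p ++ x :: r)) - θ (v :: (p ++ x' :: r)) ∈ KU Λ W θ P := by
  have hxΛ : x ∈ Λ := hF.1 x (by simp)
  have hvΛ : v ∈ Λ := hF.1 v (by simp)
  have hF' := hF.replace hx' hc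
  have e1 := C.good.move p [v] x r (by simpa using hF)
  have e2 := C.good.move p [v] x' r (by simpa using hF')
  simp only [List.cons_append, List.nil_append] at e1 e2
  have hG : Frame Λ W (v :: x :: (p ++ r)) :=
    hF.congr_perm (List.Perm.cons v List.perm_middle)
  have hlv : lvl R ℓ (x - c • v) = lvl R ℓ x' := by
    apply lvl_congr
    have h0 : ℓ (x' - (x - c • v)) = 0 := C.hW hc
    rw [map_sub, sub_eq_zero] at h0
    exact h0.symm
  have h1 := C.change1 (c := c) hG hx (by
    intro y hy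
    rcases List.mem_append.mp hy with hy | hy
    · exact hp y hy
    · exact hr y hy) (by rw [hlv]; exact hN)
  have hsub : x - c • v ∈ Λ := Λ.sub_mem hxΛ (Λ.smul_mem _ hvΛ)
  have hG' : Frame Λ W (v :: (x - c • v) :: (p ++ r)) := by
    have := Frame.replace (p := []) (c := c) (x' := x - c • v) hG hsub (by simp)
    simpa using this
  have h2 := C.good.inv' [v] (x' - (x - c • v)) (x - c • v) (p ++ r)
    (Λ.sub_mem hx' hsub) hc (by simpa using hG')
  rw [add_sub_cancel] at h2
  simp only [List.cons_append, List.nil_append] at h2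
  rw [e1, e2, h2, ← smul_sub]
  exact AddSubgroup.zsmul_mem _ h1 _

/-- A small representative of an admissible vector. -/
def Rel (Λ : Submodule R V) (W : Submodule K V) (N : R → ℕ) (ℓ : V →ₗ[K] K) (v : V)
    (P : V → Prop) (y y' : V) : Prop :=
  P y ∧ y' ∈ Λ ∧ N (lvl R ℓ y') < N (lvl R ℓ v) ∧ ∃ c : R, y' - (y - c • v) ∈ W

theorem Ctx.change3 (C : Ctx Λ W θ N ℓ v P) {l l' : List V}
    (h : List.Forall₂ (Rel Λ W N ℓ v P) l l') :
    ∀ p : List V, (∀ y ∈ p, P y) → Frame Λ W (v :: (p ++ l)) →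
      θ (v :: (p ++ l)) - θ (v :: (p ++ l')) ∈ KU Λ W θ P ∧ Frame Λ W (v :: (p ++ l')) := by
  induction h with
  | nil => intro p _ hF; exact ⟨by simp, hF⟩
  | @cons y y' l l' h1 h2 ih =>
    intro p hp hF
    obtain ⟨hy, hy', hN, c, hc⟩ := h1
    have hl : ∀ z ∈ l, P z := by
      intro z hz
      clear ih hF
      induction h2 with
      | nil => simp at hz
      | cons h3 _ ih2 =>
        rcases List.mem_cons.mp hz with rfl | hz
        · exact h3.1
        · exact ih2 hz
    have a1 := C.change2 hF hy hp hl hy' hc hN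
    have hF' := hF.replace hy' hc
    obtain ⟨a2, a3⟩ := ih (p ++ [y']) (by
      intro z hz
      rcases List.mem_append.mp hz with hz | hz
      · exact hp z hz
      · rw [List.mem_singleton.mp hz]; exact C.hP1 _ hy' hN) (by simpa using hF')
    simp only [List.append_assoc, List.cons_append, List.nil_append] at a2 a3
    refine ⟨?_, a3⟩
    have := AddSubgroup.add_mem _ a1 a2
    rwa [sub_add_sub_cancel] at this

/-- Equality of classes modulo `v` and `W`. -/
def Rel' (Λ : Submodule R V) (W : Submodule K V) (v : V) (x x' : V) : Prop :=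
  x' ∈ Λ ∧ ∃ c : R, x' - (x - c • v) ∈ W

theorem frame_rel' {l l' : List V} (h : List.Forall₂ (Rel' Λ W v) l l') :
    ∀ p : List V, Frame Λ W (v :: (p ++ l)) → Frame Λ W (v :: (p ++ l')) := by
  induction h with
  | nil => intro p h; exact h
  | @cons y y' l l' h1 h2 ih =>
    intro p hF
    obtain ⟨hy', c, hc⟩ := h1
    have := ih (p ++ [y']) (by simpa using hF.replace hy' hc)
    simpa using this

theorem exists_rt (C : Ctx Λ W θ N ℓ v P) : ∃ rt : V → V, ∀ x ∈ Λ, rt x ∈ Λ ∧
    N (lvl R ℓ (rt x)) < N (lvl R ℓ v) ∧ ∃ c : R, rt x = x - c • v := by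
  have h : ∀ x : V, ∃ y : V, x ∈ Λ → y ∈ Λ ∧ N (lvl R ℓ y) < N (lvl R ℓ v) ∧
      ∃ c : R, y = x - c • v := by
    intro x
    by_cases hx : x ∈ Λ
    · obtain ⟨c, d, hc, _, _⟩ := C.norm.tri (lvl R ℓ v) (lvl R ℓ x) 0 C.pos
      refine ⟨x - c • v, fun _ => ⟨Λ.sub_mem hx (Λ.smul_mem _ C.prim.1), ?_, c, rfl⟩⟩
      rw [lvl_sub_smul C.hℓ hx C.prim.1]
      exact hc
    · exact ⟨0, fun h => absurd h hx⟩
  choose rt hrt using h
  exact ⟨rt, fun x hx => hrt x hx⟩

/-- the induced function on frames over `W + K v` -/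
theorem Ctx.psi_eq (C : Ctx Λ W θ N ℓ v P) {rt : V → V} (hrt : ∀ x ∈ Λ, rt x ∈ Λ ∧
    N (lvl R ℓ (rt x)) < N (lvl R ℓ v) ∧ ∃ c : R, rt x = x - c • v) {l l' : List V}
    (h : List.Forall₂ (Rel' Λ W v) l l') (hP : ∀ x ∈ l', P x)
    (hF : Frame Λ (W ⊔ Submodule.span K {v}) l) :
    (QuotientAddGroup.mk (θ (v :: l')) : B ⧸ KU Λ W θ P) =
      QuotientAddGroup.mk (θ (v :: l.map rt)) ∧ Frame Λ W (v :: l') := by
  have hF0 : Frame Λ W (v :: l) := (frame_cons_iff C.hΛ).mpr ⟨C.prim, hF⟩
  have hF1 : Frame Λ W (v :: l') := by simpa using frame_rel' h [] (by simpa using hF0)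
  refine ⟨?_, hF1⟩
  have h2 : List.Forall₂ (Rel Λ W N ℓ v P) l' (l.map rt) := by
    have hl : ∀ x ∈ l, x ∈ Λ := hF.1
    clear hF0 hF1 hF
    induction h with
    | nil => exact List.Forall₂.nil
    | @cons y y' l l' h1 h2 ih =>
      refine List.Forall₂.cons ?_ (ih (fun x hx => hP x (by simp [hx]))
        (fun x hx => hl x (by simp [hx])))
      obtain ⟨hr1, hr2, c, hc⟩ := hrt y (hl y (by simp))
      obtain ⟨hy', d, hd⟩ := h1
      refine ⟨hP y' (by simp), hr1, hr2, c - d, ?_⟩
      have : rt y - (y' - (c - d) • v) = - (y' - (y - d • v)) := by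
        rw [hc, sub_smul]; abel
      rw [this]
      exact W.neg_mem hd
  obtain ⟨a1, _⟩ := C.change3 h2 [] (by simp) (by simpa using hF1)
  simp only [List.nil_append] at a1
  rw [QuotientAddGroup.eq]
  have := AddSubgroup.neg_mem _ a1
  rwa [neg_sub, sub_eq_add_neg, add_comm] at this

theorem rel'_self (x : V) (hx : x ∈ Λ) : Rel' Λ W v x x := ⟨hx, 0, by simp⟩

theorem forall2_self {l : List V} (hl : ∀ x ∈ l, x ∈ Λ) : List.Forall₂ (Rel' Λ W v) l l :=
  List.forall₂_same.mpr fun x hx => rel'_self x (hl x hx)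

theorem forall2_rt {rt : V → V} (hrt : ∀ x ∈ Λ, rt x ∈ Λ ∧
    N (lvl R ℓ (rt x)) < N (lvl R ℓ v) ∧ ∃ c : R, rt x = x - c • v) :
    ∀ l : List V, (∀ x ∈ l, x ∈ Λ) → List.Forall₂ (Rel' Λ W v) l (l.map rt) := by
  intro l
  induction l with
  | nil => intro _; exact List.Forall₂.nil
  | cons x l ih =>
    intro hl
    refine List.Forall₂.cons ?_ (ih fun y hy => hl y (by simp [hy]))
    obtain ⟨h1, _, c, hc⟩ := hrt x (hl x (by simp))
    exact ⟨h1, c, by rw [hc, sub_self]; exact W.zero_mem⟩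

theorem Ctx.rt_P (C : Ctx Λ W θ N ℓ v P) {rt : V → V} (hrt : ∀ x ∈ Λ, rt x ∈ Λ ∧
    N (lvl R ℓ (rt x)) < N (lvl R ℓ v) ∧ ∃ c : R, rt x = x - c • v) {l : List V}
    (hl : ∀ x ∈ l, x ∈ Λ) : ∀ y ∈ l.map rt, P y := by
  intro y hy
  obtain ⟨x, hx, rfl⟩ := List.mem_map.mp hy
  exact C.hP1 _ (hrt x (hl x hx)).1 (hrt x (hl x hx)).2.1

theorem Ctx.psi_good (C : Ctx Λ W θ N ℓ v P) {rt : V → V} (hrt : ∀ x ∈ Λ, rt x ∈ Λ ∧
    N (lvl R ℓ (rt x)) < N (lvl R ℓ v) ∧ ∃ c : R, rt x = x - c • v) :
    Good Λ (W ⊔ Submodule.span K {v})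
      (fun l => (QuotientAddGroup.mk (θ (v :: l.map rt)) : B ⧸ KU Λ W θ P)) := by
  have hfr : ∀ l : List V, Frame Λ (W ⊔ Submodule.span K {v}) l → Frame Λ W (v :: l.map rt) :=
    fun l hF => (C.psi_eq hrt (forall2_rt hrt l hF.1) (C.rt_P hrt hF.1) hF).2
  refine ⟨?_, ?_, ?_, ?_⟩
  · intro l₁ x y l₂ hF
    have h1 := hfr _ hF
    have h2 := C.good.perm (v :: l₁.map rt) (rt x) (rt y) (l₂.map rt) (by simpa using h1)
    simp only [List.map_append, List.map_cons]
    simp only [List.cons_append] at h2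
    rw [h2]
    rfl
  · intro u x l hF
    have hF' : Frame Λ (W ⊔ Submodule.span K {v}) ((u : R) • x :: l) := by
      refine hF.mono (by simp) ?_ ?_
      · intro y hy
        rcases List.mem_cons.mp hy with rfl | hy
        · exact Λ.smul_mem _ (hF.1 x (by simp))
        · exact hF.1 y (by simp [hy])
      · intro y hy
        rcases List.mem_cons.mp hy with rfl | hy
        · exact mem_of_unit_smul u (mem_sup_of_mem (by simp))
        · exact mem_sup_of_mem (by simp [hy])
    obtain ⟨hx1, hx2, c, hc⟩ := hrt x (hF.1 x (by simp))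
    have hl : ∀ y ∈ l, y ∈ Λ := fun y hy => hF.1 y (by simp [hy])
    have h1 := (C.psi_eq (l' := ((u : R) • rt x) :: l.map rt) hrt
      (List.Forall₂.cons ⟨Λ.smul_mem _ hx1, (u : R) * c, by
        rw [hc, smul_sub, mul_smul, sub_self]; exact W.zero_mem⟩ (forall2_rt hrt l hl)) (by
        intro y hy
        rcases List.mem_cons.mp hy with rfl | hy
        · apply C.hP1 _ (Λ.smul_mem _ hx1)
          rw [lvl_smul C.hℓ hx1, C.norm.unit]
          exact hx2
        · exact C.rt_P hrt hl y hy) hF').1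
    have h2 := C.good.unit' [v] u (rt x) (l.map rt) (by simpa using hfr _ hF)
    simp only [List.cons_append, List.nil_append] at h2
    rw [← h1, h2]
    rfl
  · intro h x l hh hhL hF
    obtain ⟨c0, hc0⟩ := C.prim.2.2 h hh hhL
    have hxΛ : x ∈ Λ := hF.1 x (by simp)
    have hl : ∀ y ∈ l, y ∈ Λ := fun y hy => hF.1 y (by simp [hy])
    obtain ⟨hr1, hr2, c, hc⟩ := hrt (x + h) (Λ.add_mem hxΛ hh)
    have h1 := (C.psi_eq (l' := (rt (x + h)) :: l.map rt) hrt
      (List.Forall₂.cons (a := x) ⟨hr1, c - c0, by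
        have : rt (x + h) - (x - (c - c0) • v) = h - c0 • v := by
          rw [hc, sub_smul]; abel
        rw [this]; exact hc0⟩ (forall2_rt hrt l hl)) (by
        intro y hy
        rcases List.mem_cons.mp hy with rfl | hy
        · exact C.hP1 _ hr1 hr2
        · exact C.rt_P hrt hl y hy) hF).1
    exact h1
  · intro x y l hF
    have hxΛ : x ∈ Λ := hF.1 x (by simp)
    have hyΛ : y ∈ Λ := hF.1 y (by simp)
    have hl : ∀ y ∈ l, y ∈ Λ := fun y hy => hF.1 y (by simp [hy])
    have hvΛ := C.prim.1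
    obtain ⟨c, d, h1, h2, h3⟩ := C.norm.tri (lvl R ℓ v) (lvl R ℓ x) (lvl R ℓ y) C.pos
    rw [← lvl_sub_smul C.hℓ hxΛ hvΛ] at h1 h3
    rw [← lvl_sub_smul C.hℓ hyΛ hvΛ] at h2 h3
    have hx1 : x - c • v ∈ Λ := Λ.sub_mem hxΛ (Λ.smul_mem _ hvΛ)
    have hy1 : y - d • v ∈ Λ := Λ.sub_mem hyΛ (Λ.smul_mem _ hvΛ)
    rw [← lvl_add C.hℓ hx1 hy1] at h3
    have rx : Rel' Λ W v x (x - c • v) := ⟨hx1, c, by rw [sub_self]; exact W.zero_mem⟩
    have ry : Rel' Λ W v y (y - d • v) := ⟨hy1, d, by rw [sub_self]; exact W.zero_mem⟩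
    have rxy : Rel' Λ W v (x + y) (x - c • v + (y - d • v)) :=
      ⟨Λ.add_mem hx1 hy1, c + d, by
        have : x - c • v + (y - d • v) - (x + y - (c + d) • v) = 0 := by rw [add_smul]; abel
        rw [this]; exact W.zero_mem⟩
    have Px := C.hP1 _ hx1 h1
    have Py := C.hP1 _ hy1 h2
    have Pxy := C.hP1 _ (Λ.add_mem hx1 hy1) h3
    have Pl := C.rt_P hrt hl
    have hF2 : Frame Λ (W ⊔ Submodule.span K {v}) ((x + y) :: y :: l) := by
      refine hF.mono (by simp) ?_ ?_
      · intro z hz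
        simp only [List.mem_cons] at hz
        rcases hz with rfl | rfl | hz
        · exact Λ.add_mem hxΛ hyΛ
        · exact hyΛ
        · exact hl z hz
      · intro z hz
        simp only [List.mem_cons] at hz
        rcases hz with rfl | rfl | hz
        · have : z = (z + y) - y := by abel
          rw [this]
          exact Submodule.sub_mem _ (mem_sup_of_mem (by simp)) (mem_sup_of_mem (by simp))
        · exact mem_sup_of_mem (by simp)
        · exact mem_sup_of_mem (by simp [hz])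
    have hF3 : Frame Λ (W ⊔ Submodule.span K {v}) ((x + y) :: x :: l) := by
      refine hF.mono (by simp) ?_ ?_
      · intro z hz
        simp only [List.mem_cons] at hz
        rcases hz with rfl | rfl | hz
        · exact Λ.add_mem hxΛ hyΛ
        · exact hxΛ
        · exact hl z hz
      · intro z hz
        simp only [List.mem_cons] at hz
        rcases hz with rfl | rfl | hz
        · exact mem_sup_of_mem (by simp)
        · have : z = (x + z) - x := by abel
          rw [this]
          exact Submodule.sub_mem _ (mem_sup_of_mem (by simp)) (mem_sup_of_mem (by simp))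
        · exact mem_sup_of_mem (by simp [hz])
    obtain ⟨e1, f1⟩ := C.psi_eq (l' := (x - c • v) :: (y - d • v) :: l.map rt) hrt
      (List.Forall₂.cons rx (List.Forall₂.cons ry (forall2_rt hrt l hl))) (by
        intro z hz
        simp only [List.mem_cons] at hz
        rcases hz with rfl | rfl | hz
        · exact Px
        · exact Py
        · exact Pl z hz) hF
    obtain ⟨e2, f2⟩ := C.psi_eq
      (l' := (x - c • v + (y - d • v)) :: (y - d • v) :: l.map rt) hrt
      (List.Forall₂.cons rxy (List.Forall₂.cons ry (forall2_rt hrt l hl))) (by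
        intro z hz
        simp only [List.mem_cons] at hz
        rcases hz with rfl | rfl | hz
        · exact Pxy
        · exact Py
        · exact Pl z hz) hF2
    obtain ⟨e3, f3⟩ := C.psi_eq
      (l' := (x - c • v + (y - d • v)) :: (x - c • v) :: l.map rt) hrt
      (List.Forall₂.cons rxy (List.Forall₂.cons rx (forall2_rt hrt l hl))) (by
        intro z hz
        simp only [List.mem_cons] at hz
        rcases hz with rfl | rfl | hz
        · exact Pxy
        · exact Px
        · exact Pl z hz) hF3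
    -- move `v` behind the first two vectors
    have mv : ∀ a b : V, Frame Λ W (v :: a :: b :: l.map rt) →
        θ (v :: a :: b :: l.map rt) = θ (a :: b :: v :: l.map rt) := by
      intro a b hab
      have g1 : Frame Λ W (a :: v :: b :: l.map rt) := hab.congr_perm (List.Perm.swap _ _ _)
      have g2 : Frame Λ W (a :: b :: v :: l.map rt) :=
        g1.congr_perm (List.Perm.cons a (List.Perm.swap _ _ _))
      have k1 := C.good.perm [] a v (b :: l.map rt) g1
      have k2 := C.good.perm [a] b v (l.map rt) g2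
      simp only [List.nil_append, List.cons_append] at k1 k2
      rw [k1, k2, neg_neg]
    have hadd := C.good.add (x - c • v) (y - d • v) (v :: l.map rt)
      (f1.congr_perm ((List.Perm.swap _ _ _).trans (List.Perm.cons _ (List.Perm.swap _ _ _))))
    rw [← mv _ _ f1, ← mv _ _ f2, ← mv _ _ f3] at hadd
    rw [← e1, ← e2, ← e3, ← QuotientAddGroup.mk_sub, ← QuotientAddGroup.mk_add, hadd]
    rfl

end

end Pool.Agent.W31.SN
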