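import Pool.Agent.W31.SN.A3
import Pool.Agent.W762.SN.T6

/-! # Residues and the induction (S02757) -/

namespace Pool.Agent.W31.SN

open scoped BigOperators

set_option linter.unusedSectionVars false
set_option autoImplicit false

section res

variable {X : Type}

/-- The residue at `L`: the part of the flags with head `L`. -/
noncomputable def res (L : X) : (List X →₀ ℤ) →+ (List X →₀ ℤ) :=
  Finsupp.comapDomain.addMonoidHom (List.cons_injective (a := L))

theorem res_apply (L : X) (z : List X →₀ ℤ) (F : List X) : res L z F = z (L :: F) := rfl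

theorem res_mapDomain_self (L : X) (z : List X →₀ ℤ) :
    res L (Finsupp.mapDomain (List.cons L) z) = z := by
  ext F
  rw [res_apply, Finsupp.mapDomain_apply List.cons_injective]

theorem res_mapDomain_ne {L M : X} (h : M ≠ L) (z : List X →₀ ℤ) :
    res L (Finsupp.mapDomain (List.cons M) z) = 0 := by
  ext F
  rw [res_apply, Finsupp.mapDomain_of_notMem_range]
  · rfl
  · rintro ⟨G, hG⟩
    exact h (List.cons.inj hG).1

end res

section

variable {K V : Type} [Field K] [AddCommGroup V] [Module K V]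

theorem apt_sum (W : Submodule K V) (x : V) (l : List V) :
    apt W (x :: l) = Finsupp.mapDomain (List.cons (W ⊔ Submodule.span K {x}))
        (apt (W ⊔ Submodule.span K {x}) l) +
      ∑ i ∈ Finset.range l.length, (-1 : ℤ) ^ (i + 1) •
        Finsupp.mapDomain (List.cons (W ⊔ Submodule.span K {l.getD i 0}))
          (aptN l.length (W ⊔ Submodule.span K {l.getD i 0}) (x :: l.eraseIdx i)) := by
  have h : apt W (x :: l) = ∑ i ∈ Finset.range (l.length + 1), (-1 : ℤ) ^ i •
      Finsupp.mapDomain (List.cons (W ⊔ Submodule.span K {(x :: l).getD i 0}))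
        (aptN l.length (W ⊔ Submodule.span K {(x :: l).getD i 0}) ((x :: l).eraseIdx i)) := rfl
  rw [h, Finset.sum_range_succ']
  simp only [pow_zero, one_smul, List.getD_cons_zero, List.eraseIdx_zero, List.tail_cons,
    List.getD_cons_succ, List.eraseIdx_cons_succ]
  rw [add_comm]
  rfl

theorem getD_mem' {l : List V} {i : ℕ} (hi : i < l.length) : l.getD i 0 ∈ l := by
  rw [List.getD_eq_getElem _ _ hi]
  exact List.getElem_mem hi

theorem res_apt_cons {W L : Submodule K V} {x : V} {l : List V}
    (hx : W ⊔ Submodule.span K {x} = L) (hl : ∀ y ∈ l, W ⊔ Submodule.span K {y} ≠ L) :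
    res L (apt W (x :: l)) = apt L l := by
  rw [apt_sum, map_add, hx, res_mapDomain_self, map_sum, Finset.sum_eq_zero, add_zero]
  intro i hi
  rw [map_zsmul, res_mapDomain_ne (hl _ (getD_mem' (Finset.mem_range.mp hi))), smul_zero]

theorem res_apt_ne {W L : Submodule K V} {l : List V} (hl0 : l ≠ [])
    (hl : ∀ y ∈ l, W ⊔ Submodule.span K {y} ≠ L) :
    res L (apt W l) = 0 := by
  obtain ⟨x, l, rfl⟩ := List.exists_cons_of_ne_nil hl0
  rw [apt_sum, map_add, res_mapDomain_ne (hl x (by simp)), zero_add, map_sum,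
    Finset.sum_eq_zero]
  intro i hi
  rw [map_zsmul, res_mapDomain_ne (hl _ (List.mem_cons_of_mem _
    (getD_mem' (Finset.mem_range.mp hi)))), smul_zero]

end

section

variable {R K V : Type} [CommRing R] [IsDomain R] [Field K] [Algebra R K] [IsFractionRing R K]
  [AddCommGroup V] [Module K V] [Module R V] [IsScalarTower R K V] [FiniteDimensional K V]

/-- `φ` together with the apartment. -/
noncomputable def pr (W : Submodule K V) {A : Type} (φ : List V → A) (l : List V) :
    A × (List (Submodule K V) →₀ ℤ) := (φ l, apt W l)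

/-- The main statement over `W`. -/
def Main (Λ : Submodule R V) (W : Submodule K V) : Prop :=
  ∀ (A : Type) [AddCommGroup A] (φ : List V → A), Good Λ W φ → ∀ a : A,
    (a, 0) ∈ AddSubgroup.closure (pr W φ '' {l | Frame Λ W l}) → a = 0

theorem good_pr {Λ : Submodule R V} (hΛ : Submodule.span K (Λ : Set V) = ⊤) {W : Submodule K V}
    {A : Type} [AddCommGroup A] {φ : List V → A} (h : Good Λ W φ) : Good Λ W (pr W φ) := by
  have h2 := (Pool.Agent.W762.SN.done R K V Λ hΛ W).1
  refine ⟨?_, ?_, ?_, ?_⟩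
  · intro l₁ x y l₂ hF
    exact Prod.ext (h.perm l₁ x y l₂ hF) (h2.perm l₁ x y l₂ hF)
  · intro u x l hF
    exact Prod.ext (h.unit u x l hF) (h2.unit u x l hF)
  · intro k x l hk hk' hF
    exact Prod.ext (h.inv k x l hk hk' hF) (h2.inv k x l hk hk' hF)
  · intro x y l hF
    exact Prod.ext (h.add x y l hF) (h2.add x y l hF)

/-- vectors of level `< k`, or of level `k` on one of the lines of `Ls` -/
def PP (R : Type) {K V : Type} [CommRing R] [Field K] [Algebra R K]
    [AddCommGroup V] [Module K V] (W : Submodule K V) (N : R → ℕ) (ℓ : V →ₗ[K] K) (k : ℕ)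
    (Ls : Set (Submodule K V)) (x : V) : Prop :=
  N (lvl R ℓ x) < k ∨ (N (lvl R ℓ x) = k ∧ W ⊔ Submodule.span K {x} ∈ Ls)

theorem Frame.ne_nil {Λ : Submodule R V} {W : Submodule K V} {v : V} (hv : v ∉ W)
    {l : List V} (h : Frame Λ W l) : l ≠ [] := by
  rintro rfl
  have h1 := h.2.2
  simp only [List.length_nil, zero_add] at h1
  have := Submodule.eq_top_of_finrank_eq h1
  rw [this] at hv
  exact hv Submodule.mem_top

theorem step {Λ : Submodule R V} {W : Submodule K V} {A : Type} [AddCommGroup A]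
    {φ : List V → A} {N : R → ℕ} {ℓ : V →ₗ[K] K} {v : V} {k : ℕ} {Ls : Set (Submodule K V)}
    (hk : N (lvl R ℓ v) = k) (hLs : W ⊔ Submodule.span K {v} ∉ Ls)
    (C : Ctx Λ W (pr W φ) N ℓ v (PP R W N ℓ k Ls))
    (IH : Main Λ (W ⊔ Submodule.span K {v})) {a : A}
    (ha : (a, 0) ∈ KU Λ W (pr W φ) (PP R W N ℓ k (insert (W ⊔ Submodule.span K {v}) Ls))) :
    (a, 0) ∈ KU Λ W (pr W φ) (PP R W N ℓ k Ls) := by
  obtain ⟨rt, hrt⟩ := exists_rt C
  set L := W ⊔ Submodule.span K {v} with hL
  have hψ := C.psi_good hrt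
  have IH1 := IH _ _ hψ (QuotientAddGroup.mk (a, 0))
  let h : A × (List (Submodule K V) →₀ ℤ) →+
      ((A × (List (Submodule K V) →₀ ℤ)) ⧸ KU Λ W (pr W φ) (PP R W N ℓ k Ls)) ×
        (List (Submodule K V) →₀ ℤ) :=
    (QuotientAddGroup.mk' _).prod ((res L).comp (AddMonoidHom.snd _ _))
  have key : KU Λ W (pr W φ) (PP R W N ℓ k (insert L Ls)) ≤
      (AddSubgroup.closure (pr L (fun l => (QuotientAddGroup.mk (pr W φ (v :: l.map rt)) :
        (A × (List (Submodule K V) →₀ ℤ)) ⧸ KU Λ W (pr W φ) (PP R W N ℓ k Ls))) ''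
          {l | Frame Λ L l})).comap h := by
    refine (AddSubgroup.closure_le _).mpr ?_
    rintro _ ⟨l, ⟨hF, hP⟩, rfl⟩
    rw [SetLike.mem_coe, AddSubgroup.mem_comap]
    by_cases hx : ∃ x ∈ l, W ⊔ Submodule.span K {x} = L
    · obtain ⟨x, hxl, hxL⟩ := hx
      obtain ⟨l₁, l₂, rfl⟩ := List.mem_iff_append.mp hxl
      have hF2 : Frame Λ W (x :: (l₁ ++ l₂)) := hF.congr_perm List.perm_middle
      obtain ⟨hxP, hFL⟩ := (frame_cons_iff C.hΛ).mp hF2
      rw [hxL] at hFL
      obtain ⟨u, hu⟩ := C.prim.unit hxP hxL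
      have hF3 : Frame Λ W (v :: (l₁ ++ l₂)) := (frame_cons_iff C.hΛ).mpr ⟨C.prim, hFL⟩
      have hF4 : Frame Λ W ((u : R) • v :: (l₁ ++ l₂)) := by
        refine hF3.mono (by simp) ?_ ?_
        · intro z hz
          rcases List.mem_cons.mp hz with rfl | hz
          · exact Λ.smul_mem _ C.prim.1
          · exact hF3.1 z (List.mem_cons_of_mem _ hz)
        · intro z hz
          rcases List.mem_cons.mp hz with rfl | hz
          · exact mem_of_unit_smul u (mem_sup_of_mem (by simp))
          · exact mem_sup_of_mem (List.mem_cons_of_mem _ hz)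
      have e1 := C.good.move l₁ [] x l₂ (by simpa using hF)
      have e2 := C.good.inv (x - (u : R) • v) ((u : R) • v) (l₁ ++ l₂)
        (Λ.sub_mem hxP.1 (Λ.smul_mem _ C.prim.1)) hu hF4
      rw [add_sub_cancel] at e2
      have e3 := C.good.unit u v (l₁ ++ l₂) hF3
      simp only [List.nil_append] at e1
      rw [e1, e2, e3, map_zsmul]
      apply AddSubgroup.zsmul_mem
      have hne : ∀ y ∈ l₁ ++ l₂, W ⊔ Submodule.span K {y} ≠ L := by
        intro y hy hyL
        obtain ⟨l₃, l₄, hl⟩ := List.mem_iff_append.mp hy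
        have hF5 : Frame Λ L (y :: (l₃ ++ l₄)) := by
          rw [hl] at hFL
          exact hFL.congr_perm List.perm_middle
        have h5 := ((frame_cons_iff C.hΛ).mp hF5).1.2.1
        apply h5
        rw [← hyL]
        exact Submodule.mem_sup_right (Submodule.mem_span_singleton_self y)
      have hPP : ∀ y ∈ l₁ ++ l₂, PP R W N ℓ k Ls y := by
        intro y hy
        have hy' : y ∈ l₁ ++ x :: l₂ := by
          simp only [List.mem_append, List.mem_cons] at hy ⊢
          tauto
        rcases hP y hy' with h1 | ⟨h1, h2⟩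
        · exact Or.inl h1
        · refine Or.inr ⟨h1, ?_⟩
          rcases h2 with h2 | h2
          · exact absurd h2 (hne y hy)
          · exact h2
      have e4 := (C.psi_eq hrt (forall2_self (W := W) (v := v) hFL.1) hPP hFL).1
      have e5 : h (pr W φ (v :: (l₁ ++ l₂))) =
          pr L (fun l => (QuotientAddGroup.mk (pr W φ (v :: l.map rt)) :
            (A × (List (Submodule K V) →₀ ℤ)) ⧸ KU Λ W (pr W φ) (PP R W N ℓ k Ls)))
            (l₁ ++ l₂) := by
        refine Prod.ext e4 ?_
        exact res_apt_cons rfl hne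
      rw [e5]
      exact AddSubgroup.subset_closure ⟨_, hFL, rfl⟩
    · push Not at hx
      have e1 : h (pr W φ l) = 0 := by
        refine Prod.ext ?_ ?_
        · refine (QuotientAddGroup.eq_zero_iff _).mpr (mem_KU hF ?_)
          intro y hy
          rcases hP y hy with h1 | ⟨h1, h2⟩
          · exact Or.inl h1
          · refine Or.inr ⟨h1, ?_⟩
            rcases h2 with h2 | h2
            · exact absurd h2 (hx y hy)
            · exact h2
        · exact res_apt_ne (hF.ne_nil C.prim.2.1) hx
      rw [e1]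
      exact AddSubgroup.zero_mem _
  have h1 := key ha
  rw [AddSubgroup.mem_comap] at h1
  have h2 : h (a, 0) = (QuotientAddGroup.mk (a, 0), 0) := by
    refine Prod.ext rfl ?_
    exact map_zero (res L)
  rw [h2] at h1
  exact (QuotientAddGroup.eq_zero_iff _).mp (IH1 h1)

end

end Pool.Agent.W31.SN
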