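import Pool.Agent.W31.SN.A4

/-! # The relations suffice (S02757) -/

namespace Pool.Agent.W31.SN

open scoped BigOperators

set_option linter.unusedSectionVars false
set_option autoImplicit false

section

variable {R K V : Type} [CommRing R] [IsDomain R] [Field K] [Algebra R K] [IsFractionRing R K]
  [AddCommGroup V] [Module K V] [Module R V] [IsScalarTower R K V] [FiniteDimensional K V]

theorem KU_mono {Λ : Submodule R V} {W : Submodule K V} {B : Type} [AddCommGroup B]
    {θ : List V → B} {P Q : V → Prop} (h : ∀ l, Frame Λ W l → (∀ x ∈ l, P x) → ∀ x ∈ l, Q x) :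
    KU Λ W θ P ≤ KU Λ W θ Q := by
  refine AddSubgroup.closure_mono (Set.image_mono ?_)
  rintro l ⟨h1, h2⟩
  exact ⟨h1, h l h1 h2⟩

theorem PP_mono {W : Submodule K V} {N : R → ℕ} {ℓ : V →ₗ[K] K} {k : ℕ}
    {Ls Ls' : Set (Submodule K V)} (h : Ls ⊆ Ls') {x : V} (hx : PP R W N ℓ k Ls x) :
    PP R W N ℓ k Ls' x := by
  rcases hx with h1 | ⟨h1, h2⟩
  · exact Or.inl h1
  · exact Or.inr ⟨h1, h h2⟩

theorem exists_Ls {Λ : Submodule R V} {W : Submodule K V} {B : Type} [AddCommGroup B]
    {θ : List V → B} {N : R → ℕ} {ℓ : V →ₗ[K] K} {k : ℕ} {y : B}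
    (hy : y ∈ KU Λ W θ (PP R W N ℓ (k + 1) ∅)) :
    ∃ Ls : Finset (Submodule K V), y ∈ KU Λ W θ (PP R W N ℓ k (Ls : Set (Submodule K V))) := by
  classical
  unfold KU at hy
  induction hy using AddSubgroup.closure_induction with
  | mem y hy =>
    obtain ⟨l, ⟨hF, hP⟩, rfl⟩ := hy
    refine ⟨(l.map (fun x => W ⊔ Submodule.span K {x})).toFinset, mem_KU hF ?_⟩
    intro x hx
    rcases hP x hx with h | ⟨_, h⟩
    · rcases Nat.lt_succ_iff_lt_or_eq.mp h with h | h
      · exact Or.inl h
      · refine Or.inr ⟨h, ?_⟩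
        simp only [List.coe_toFinset, List.mem_map, Set.mem_ofPred_eq]
        exact ⟨x, hx, rfl⟩
    · exact absurd h (Set.notMem_empty _)
  | zero => exact ⟨∅, AddSubgroup.zero_mem _⟩
  | add a b _ _ ha hb =>
    obtain ⟨L1, h1⟩ := ha
    obtain ⟨L2, h2⟩ := hb
    refine ⟨L1 ∪ L2, AddSubgroup.add_mem _ (KU_mono ?_ h1) (KU_mono ?_ h2)⟩
    · intro l _ h x hx
      exact PP_mono (by simp) (h x hx)
    · intro l _ h x hx
      exact PP_mono (by simp) (h x hx)
  | neg a _ ha =>
    obtain ⟨L1, h1⟩ := ha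
    exact ⟨L1, AddSubgroup.neg_mem _ h1⟩

theorem exists_k {Λ : Submodule R V} {W : Submodule K V} {B : Type} [AddCommGroup B]
    {θ : List V → B} (N : R → ℕ) (ℓ : V →ₗ[K] K) {y : B}
    (hy : y ∈ AddSubgroup.closure (θ '' {l | Frame Λ W l})) :
    ∃ k : ℕ, y ∈ KU Λ W θ (PP R W N ℓ k ∅) := by
  classical
  induction hy using AddSubgroup.closure_induction with
  | mem y hy =>
    obtain ⟨l, hF, rfl⟩ := hy
    refine ⟨(l.map (fun x => N (lvl R ℓ x))).sum + 1, mem_KU hF ?_⟩
    intro x hx
    left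
    rw [Nat.lt_succ_iff]
    exact List.single_le_sum (by simp) _ (List.mem_map.mpr ⟨x, hx, rfl⟩)
  | zero => exact ⟨0, AddSubgroup.zero_mem _⟩
  | add a b _ _ ha hb =>
    obtain ⟨k1, h1⟩ := ha
    obtain ⟨k2, h2⟩ := hb
    refine ⟨max k1 k2, AddSubgroup.add_mem _ (KU_mono ?_ h1) (KU_mono ?_ h2)⟩
    · intro l _ h x hx
      rcases h x hx with h | ⟨_, h⟩
      · exact Or.inl (lt_max_of_lt_left h)
      · exact absurd h (Set.notMem_empty _)
    · intro l _ h x hx
      rcases h x hx with h | ⟨_, h⟩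
      · exact Or.inl (lt_max_of_lt_right h)
      · exact absurd h (Set.notMem_empty _)
  | neg a _ ha =>
    obtain ⟨L1, h1⟩ := ha
    exact ⟨L1, AddSubgroup.neg_mem _ h1⟩

theorem level_zero {Λ : Submodule R V} (hΛ : Submodule.span K (Λ : Set V) = ⊤)
    {W : Submodule K V} {N : R → ℕ} (hN : NormOk R N) {ℓ : V →ₗ[K] K}
    (hW : W ≤ LinearMap.ker ℓ) (h0 : ℓ ≠ 0) (hℓ : ∀ x ∈ Λ, ∃ r : R, ℓ x = algebraMap R K r)
    {Ls : Set (Submodule K V)} {l : List V} (hF : Frame Λ W l)
    (hP : ∀ x ∈ l, PP R W N ℓ 0 Ls x) : False := by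
  have h1 : ∀ x ∈ l, ℓ x = 0 := by
    intro x hx
    rcases hP x hx with h | ⟨h, _⟩
    · omega
    · rw [algebraMap_lvl hℓ (hF.1 x hx), (hN.zero _).mp h, map_zero]
  have h2 := hF.top hΛ
  have h3 : (⊤ : Submodule K V) ≤ LinearMap.ker ℓ := by
    rw [← h2]
    refine sup_le hW (Submodule.span_le.mpr ?_)
    intro x hx
    exact h1 x hx
  exact h0 (LinearMap.ker_eq_top.mp (top_le_iff.mp h3))

theorem main_zero {Λ : Submodule R V} {W : Submodule K V}
    (hW : 0 + Module.finrank K W = Module.finrank K V) : Main Λ W := by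
  intro A _ φ _ a ha
  have h1 : AddSubgroup.closure (pr W φ '' {l | Frame Λ W l}) ≤
      AddSubgroup.zmultiples (pr W φ []) := by
    refine (AddSubgroup.closure_le _).mpr ?_
    rintro _ ⟨l, hF, rfl⟩
    have h2 := hF.2.2
    have h3 : l = [] := List.length_eq_zero_iff.mp (by omega)
    rw [h3]
    exact AddSubgroup.mem_zmultiples _
  obtain ⟨n, hn⟩ := AddSubgroup.mem_zmultiples_iff.mp (h1 ha)
  have h2 := congrArg Prod.snd hn
  have h3 : n • (Finsupp.single [] 1 : List (Submodule K V) →₀ ℤ) = 0 := h2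
  rw [Finsupp.smul_single, Finsupp.single_eq_zero] at h3
  have h4 : n = 0 := by simpa using h3
  have h5 := congrArg Prod.fst hn
  rw [h4] at h5
  simpa using h5.symm

theorem main_succ {Λ : Submodule R V} (hΛ : Submodule.span K (Λ : Set V) = ⊤)
    {N : R → ℕ} (hN : NormOk R N) {W : Submodule K V} {m : ℕ}
    (IH : ∀ W' : Submodule K V, m + Module.finrank K W' = Module.finrank K V → Main Λ W')
    (hm : m + 1 + Module.finrank K W = Module.finrank K V) : Main Λ W := by
  classical
  intro A _ φ hφ a ha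
  by_cases hne : ∃ l, Frame Λ W l
  swap
  · have h0 : {l | Frame Λ W l} = ∅ := by
      ext l
      simp only [Set.mem_ofPred_eq, Set.mem_empty_iff_false, iff_false]
      exact fun h => hne ⟨l, h⟩
    rw [h0, Set.image_empty, AddSubgroup.closure_empty, AddSubgroup.mem_bot] at ha
    exact congrArg Prod.fst ha
  obtain ⟨l0, hl0⟩ := hne
  obtain ⟨v0, l0, rfl⟩ : ∃ v l, l0 = v :: l := by
    cases l0 with
    | nil =>
      have := hl0.2.2
      simp only [List.length_nil, zero_add] at this
      omega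
    | cons v l => exact ⟨v, l, rfl⟩
  obtain ⟨ℓ, hℓW, hℓ0, hℓ⟩ := hl0.exists_dual hΛ
  have claim : ∀ k : ℕ, ∀ Ls : Finset (Submodule K V), ∀ a : A,
      (a, 0) ∈ KU Λ W (pr W φ) (PP R W N ℓ k (Ls : Set (Submodule K V))) → a = 0 := by
    intro k
    induction k with
    | zero =>
      intro Ls a ha
      have h0 : {l | Frame Λ W l ∧ ∀ x ∈ l, PP R W N ℓ 0 (Ls : Set (Submodule K V)) x} = ∅ := by
        ext l
        simp only [Set.mem_ofPred_eq, Set.mem_empty_iff_false, iff_false]
        rintro ⟨h1, h2⟩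
        exact level_zero hΛ hN hℓW hℓ0 hℓ h1 h2
      unfold KU at ha
      rw [h0, Set.image_empty, AddSubgroup.closure_empty, AddSubgroup.mem_bot] at ha
      exact congrArg Prod.fst ha
    | succ k ih =>
      intro Ls
      induction Ls using Finset.induction_on with
      | empty =>
        intro a ha
        rw [Finset.coe_empty] at ha
        obtain ⟨Ls, h⟩ := exists_Ls ha
        exact ih Ls a h
      | insert L Ls hL ihL =>
        intro a ha
        rw [Finset.coe_insert] at ha
        by_cases hv : ∃ v, Prim Λ W v ∧ N (lvl R ℓ v) = k + 1 ∧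
            W ⊔ Submodule.span K {v} = L
        · obtain ⟨v, hv1, hv2, rfl⟩ := hv
          apply ihL
          refine step hv2 (by simpa using hL) ?_ (IH _ ?_) ha
          · refine ⟨good_pr hΛ hφ, hN, hΛ, hℓW, hℓ, hv1, ?_, ?_, ?_⟩
            · intro h
              rw [h, (hN.zero 0).mpr rfl] at hv2
              omega
            · intro x _ hx
              rw [hv2] at hx
              exact Or.inl hx
            · intro x hx
              rw [hv2]
              rcases hx with hx | ⟨hx, _⟩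
              · exact hx.le
              · exact hx.le
          · rw [finrank_sup_one hv1.2.1]; omega
        · apply ihL
          refine KU_mono ?_ ha
          intro l hF hP x hx
          rcases hP x hx with h | ⟨h1, h2⟩
          · exact Or.inl h
          · refine Or.inr ⟨h1, ?_⟩
            rcases h2 with h2 | h2
            · exfalso
              apply hv
              obtain ⟨l₁, l₂, rfl⟩ := List.mem_iff_append.mp hx
              have hF2 : Frame Λ W (x :: (l₁ ++ l₂)) := hF.congr_perm List.perm_middle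
              exact ⟨x, ((frame_cons_iff hΛ).mp hF2).1, h1, h2⟩
            · exact h2
  obtain ⟨k, hk⟩ := exists_k N ℓ ha
  exact claim k ∅ a (by rw [Finset.coe_empty]; exact hk)

theorem main_all {Λ : Submodule R V} (hΛ : Submodule.span K (Λ : Set V) = ⊤)
    {N : R → ℕ} (hN : NormOk R N) : ∀ (m : ℕ) (W : Submodule K V),
    m + Module.finrank K W = Module.finrank K V → Main Λ W := by
  intro m
  induction m with
  | zero => intro W hW; exact main_zero hW
  | succ m ih => intro W hW; exact main_succ hΛ hN ih hW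

end

theorem task2 : Task2 := by
  intro R K V _ _ _ _ _ _ _ _ _ _ N hN Λ hΛ W A _ φ hφ z hz h0
  obtain ⟨m, hm⟩ : ∃ m, m + Module.finrank K W = Module.finrank K V :=
    ⟨Module.finrank K V - Module.finrank K W, Nat.sub_add_cancel (Submodule.finrank_le W)⟩
  apply main_all hΛ hN m W hm A φ hφ
  have h1 : z.sum (fun l c => c • pr W φ l) ∈
      AddSubgroup.closure (pr W φ '' {l | Frame Λ W l}) := by
    refine AddSubgroup.sum_mem _ fun l hl => AddSubgroup.zsmul_mem _ ?_ _
    exact AddSubgroup.subset_closure ⟨l, hz l hl, rfl⟩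
  have h2 : z.sum (fun l c => c • pr W φ l) = (z.sum (fun l c => c • φ l), 0) := by
    refine Prod.ext ?_ ?_
    · simp [Finsupp.sum, Prod.fst_sum, pr]
    · rw [← h0]
      simp [Finsupp.sum, Prod.snd_sum, pr]
  rw [h2] at h1
  exact h1

end Pool.Agent.W31.SN
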