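import Pool.Agent.W31.SN.A2

/-! # Frames of the standard lattice and invertible matrices (S02757) -/

namespace Pool.Agent.W31.SN

open scoped BigOperators

set_option linter.unusedSectionVars false
set_option autoImplicit false

section lists

variable {X : Type}

theorem ofFn_update : ∀ (m : ℕ) (g : Fin m → X) (j : Fin m), ∃ q r : List X,
    q.length = j ∧ ∀ a, List.ofFn (Function.update g j a) = q ++ a :: r := by
  intro m
  induction m with
  | zero => intro g j; exact j.elim0
  | succ m ih =>
    intro g j
    refine Fin.cases ?_ (fun j => ?_) j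
    · refine ⟨[], List.ofFn (fun k => g (Fin.succ k)), rfl, fun a => ?_⟩
      rw [List.ofFn_succ]
      simp [Function.update_of_ne, Fin.succ_ne_zero]
    · obtain ⟨q, r, hq, h⟩ := ih (fun k => g (Fin.succ k)) j
      refine ⟨g 0 :: q, r, by simp [hq], fun a => ?_⟩
      rw [List.ofFn_succ, Function.update_of_ne (Fin.succ_ne_zero j).symm, List.cons_append, ← h a]
      congr 2
      funext k
      by_cases hk : k = j
      · subst hk; simp
      · rw [Function.update_of_ne hk, Function.update_of_ne]
        exact fun hh => hk (Fin.succ_injective _ hh)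

theorem ofFn_split (m : ℕ) (g : Fin m → X) (j : Fin m) : ∃ q r : List X, q.length = j ∧
    List.ofFn g = q ++ g j :: r ∧ ∀ a, List.ofFn (Function.update g j a) = q ++ a :: r := by
  obtain ⟨q, r, hq, h⟩ := ofFn_update m g j
  refine ⟨q, r, hq, ?_, h⟩
  rw [← h (g j), Function.update_eq_self]

theorem ofFn_swap : ∀ (m : ℕ) (g : Fin m → X) (i j : Fin m), i < j → ∃ p q r : List X,
    p.length = i ∧ p.length + q.length + 1 = j ∧
    List.ofFn g = p ++ g i :: (q ++ g j :: r) ∧
    List.ofFn (g ∘ Equiv.swap i j) = p ++ g j :: (q ++ g i :: r) := by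
  intro m
  induction m with
  | zero => intro g i; exact i.elim0
  | succ m ih =>
    intro g i j hij
    obtain ⟨j, rfl⟩ : ∃ j' : Fin m, j = j'.succ :=
      ⟨j.pred (Fin.ne_zero_of_lt hij), (Fin.succ_pred _ _).symm⟩
    revert hij
    refine Fin.cases ?_ (fun i => ?_) i
    · intro _
      obtain ⟨q, r, hq, h1, h2⟩ := ofFn_split m (fun k => g (Fin.succ k)) j
      refine ⟨[], q, r, rfl, by simp [hq], ?_, ?_⟩
      · rw [List.ofFn_succ, h1]; rfl
      · rw [List.ofFn_succ, List.nil_append, ← h2 (g 0)]
        simp only [Function.comp_apply, Equiv.swap_apply_left]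
        congr 2
        funext k
        by_cases hk : k = j
        · subst hk; simp
        · rw [Function.update_of_ne hk, Equiv.swap_apply_of_ne_of_ne (Fin.succ_ne_zero k)]
          exact fun hh => hk (Fin.succ_injective _ hh)
    · intro hij
      obtain ⟨p, q, r, hp, hq, h1, h2⟩ :=
        ih (fun k => g (Fin.succ k)) i j (Fin.succ_lt_succ_iff.mp hij)
      refine ⟨g 0 :: p, q, r, by simp [hp], by simp only [List.length_cons, Fin.val_succ]; omega,
        ?_, ?_⟩
      · rw [List.ofFn_succ, h1]; rfl
      · rw [List.ofFn_succ, List.cons_append, ← h2]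
        have e0 : (g ∘ Equiv.swap i.succ j.succ) 0 = g 0 := by
          rw [Function.comp_apply, Equiv.swap_apply_of_ne_of_ne (Fin.succ_ne_zero i).symm
            (Fin.succ_ne_zero j).symm]
        rw [e0]
        congr 2
        funext k
        simp only [Function.comp_apply]
        rw [Equiv.swap_apply_def, Equiv.swap_apply_def]
        simp only [Fin.succ_inj]
        split_ifs <;> rfl

end lists

section

variable {R K : Type} [CommRing R] [IsDomain R] [Field K] [Algebra R K] [IsFractionRing R K]
  {N : ℕ}

/-- Integral vectors as vectors. -/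
def toV (R K : Type) [CommRing R] [Field K] [Algebra R K] (N : ℕ) :
    (Fin N → R) →ₗ[R] (Fin N → K) :=
  (Algebra.linearMap R K).compLeft (Fin N)

theorem toV_apply (b : Fin N → R) (i : Fin N) : toV R K N b i = algebraMap R K (b i) := rfl

theorem toV_injective : Function.Injective (toV R K N) := by
  intro a b h
  funext i
  exact IsFractionRing.injective R K (congrFun h i)

/-- The standard lattice. -/
def lat (R K : Type) [CommRing R] [Field K] [Algebra R K] (N : ℕ) : Submodule R (Fin N → K) :=
  LinearMap.range (toV R K N)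

theorem lat_fg : (lat R K N).FG := by
  rw [lat, LinearMap.range_eq_map]
  exact Submodule.FG.map _ Module.Finite.fg_top

theorem lat_span : Submodule.span K (lat R K N : Set (Fin N → K)) = ⊤ := by
  classical
  rw [eq_top_iff]
  intro x _
  have hx : x = ∑ i, x i • (Pi.single i 1 : Fin N → K) := by
    funext j
    simp [Finset.sum_apply, Pi.single_apply]
  rw [hx]
  refine Submodule.sum_mem _ fun i _ => Submodule.smul_mem _ _ (Submodule.subset_span ?_)
  refine ⟨Pi.single i 1, ?_⟩
  funext j
  rw [toV_apply]
  by_cases h : j = i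
  · subst h; simp
  · simp [h]

/-- The list of the columns. -/
def ofB (K : Type) [Field K] [Algebra R K] (b : Fin N → Fin N → R) : List (Fin N → K) :=
  List.ofFn (fun i => toV R K N (b i))

theorem mem_ofB {b : Fin N → Fin N → R} : {x | x ∈ ofB K b} = Set.range (fun i => toV R K N (b i)) := by
  ext x
  simp [ofB, List.mem_ofFn]

theorem frame_ofB {b : Fin N → Fin N → R} (hb : IsB b) : Frame (lat R K N) (⊥ : Submodule K (Fin N → K)) (ofB K b) := by
  classical
  refine ⟨?_, ?_, ?_⟩
  · intro x hx
    have : x ∈ {x | x ∈ ofB K b} := hx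
    rw [mem_ofB] at this
    obtain ⟨i, rfl⟩ := this
    exact ⟨b i, rfl⟩
  · rintro _ ⟨a, rfl⟩
    rw [mem_ofB]
    apply Submodule.mem_sup_right
    have h1 : a = ∑ i, (Matrix.vecMul a (Matrix.of b)⁻¹) i • b i := by
      have h2 : Matrix.vecMul (Matrix.vecMul a (Matrix.of b)⁻¹) (Matrix.of b) = a := by
        rw [Matrix.vecMul_vecMul, Matrix.nonsing_inv_mul _ hb, Matrix.vecMul_one]
      conv_lhs => rw [← h2]
      funext j
      simp [Matrix.vecMul, dotProduct, Finset.sum_apply]
    rw [h1, map_sum]
    refine Submodule.sum_mem _ fun i _ => ?_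
    rw [map_smul]
    exact Submodule.smul_mem _ _ (Submodule.subset_span ⟨i, rfl⟩)
  · simp [ofB]

theorem isB_of_frame {b : Fin N → Fin N → R} (hb : Frame (lat R K N) (⊥ : Submodule K (Fin N → K)) (ofB K b)) : IsB b := by
  classical
  have h1 : ∀ j : Fin N, ∃ c : Fin N → R, ∑ i, c i • b i = Pi.single j 1 := by
    intro j
    obtain ⟨w, hw, y, hy, hwy⟩ := mem_decomp.mp (hb.2.1 ⟨Pi.single j 1, rfl⟩)
    rw [Submodule.mem_bot] at hw
    rw [hw, zero_add] at hwy
    rw [mem_ofB, Submodule.mem_span_range_iff_exists_fun] at hy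
    obtain ⟨c, hc⟩ := hy
    refine ⟨c, toV_injective (K := K) ?_⟩
    rw [map_sum, ← hwy, ← hc]
    simp
  choose c hc using h1
  have h2 : Matrix.of c * Matrix.of b = 1 := by
    ext j k
    have h3 := congrFun (hc j) k
    simp only [Finset.sum_apply, Pi.smul_apply, smul_eq_mul] at h3
    rw [Matrix.mul_apply]
    simp only [Matrix.of_apply]
    rw [h3, Matrix.one_apply, Pi.single_apply]
    simp [eq_comm]
  exact Matrix.isUnit_det_of_left_inverse h2

/-- The matrix of a list of integral vectors. -/
noncomputable def mat (R : Type) {K : Type} [CommRing R] [Field K] [Algebra R K] {N : ℕ}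
    (l : List (Fin N → K)) : Fin N → Fin N → R :=
  fun i => Function.invFun (toV R K N) (l.getD i 0)

theorem mat_ofB (b : Fin N → Fin N → R) : mat R (ofB K b) = b := by
  funext i
  unfold mat ofB
  have h1 : (List.ofFn (fun i => toV R K N (b i))).getD (i : ℕ) 0 = toV R K N (b i) := by
    rw [List.getD_eq_getElem _ _ (by simp)]
    simp
  rw [h1, Function.leftInverse_invFun toV_injective]

theorem ofB_mat {l : List (Fin N → K)} (hl : Frame (lat R K N) (⊥ : Submodule K (Fin N → K)) l) : ofB K (mat R l) = l := by
  have hlen : l.length = N := by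
    have := hl.2.2
    simpa using this
  apply List.ext_getElem
  · simp [ofB, hlen]
  · intro i h1 h2
    simp only [ofB, List.getElem_ofFn, mat]
    rw [List.getD_eq_getElem _ _ h2]
    exact Function.invFun_eq (hl.1 _ (List.getElem_mem h2))

theorem isB_mat {l : List (Fin N → K)} (hl : Frame (lat R K N) (⊥ : Submodule K (Fin N → K)) l) : IsB (mat R l) := by
  apply isB_of_frame (K := K)
  rw [ofB_mat hl]
  exact hl

end

end Pool.Agent.W31.SN
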