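import Pool.Agent.W31.SN.B1

/-! # Relations on matrices and on frames (S02757) -/

namespace Pool.Agent.W31.SN

open scoped BigOperators

set_option linter.unusedSectionVars false
set_option autoImplicit false

section

variable {R K V : Type} [CommRing R] [IsDomain R] [Field K] [Algebra R K] [IsFractionRing R K]
  [AddCommGroup V] [Module K V] [Module R V] [IsScalarTower R K V] [FiniteDimensional K V]

theorem Good.swap {Λ : Submodule R V} {W : Submodule K V} {B : Type} [AddCommGroup B]
    {θ : List V → B} (hθ : Good Λ W θ) {p q r : List V} {x y : V}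
    (hF : Frame Λ W (p ++ x :: (q ++ y :: r))) :
    θ (p ++ y :: (q ++ x :: r)) = - θ (p ++ x :: (q ++ y :: r)) := by
  have hp1 : (p ++ x :: (q ++ y :: r)).Perm (p ++ y :: (q ++ x :: r)) := by
    refine List.Perm.append_left p ?_
    refine (List.Perm.cons x List.perm_middle).trans ?_
    refine (List.Perm.swap y x _).trans ?_
    exact List.Perm.cons y List.perm_middle.symm
  have hF' := hF.congr_perm hp1
  have e1 := hθ.move (x :: q) p y r (by simpa using hF)
  have e2 := hθ.move (y :: q) p x r (by simpa using hF')
  have hp2 : (p ++ x :: (q ++ y :: r)).Perm (p ++ x :: y :: (q ++ r)) :=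
    List.Perm.append_left p (List.Perm.cons x List.perm_middle)
  have e3 := hθ.perm p x y (q ++ r) (hF.congr_perm hp2)
  simp only [List.cons_append] at e1 e2
  rw [e1, e2, e3]
  simp

end

section

variable {R K : Type} [CommRing R] [IsDomain R] [Field K] [Algebra R K] [IsFractionRing R K]
  {n : ℕ}

theorem IsB.swap {N : ℕ} {b : Fin N → Fin N → R} (hb : IsB b) (i j : Fin N) :
    IsB (b ∘ Equiv.swap i j) := by
  unfold IsB at hb ⊢
  have : Matrix.of (b ∘ Equiv.swap i j) = (Matrix.of b).submatrix (Equiv.swap i j) id := rfl
  rw [this, Matrix.det_permute]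
  exact IsUnit.mul ((Units.isUnit (Equiv.Perm.sign (Equiv.swap i j))).map (Int.castRingHom R)) hb

theorem rels_of_good {B : Type} [AddCommGroup B] {θ : List (Fin (n + 2) → K) → B}
    (hθ : Good (lat R K (n + 2)) (⊥ : Submodule K (Fin (n + 2) → K)) θ) :
    Rels (0 : Fin (n + 2)) 1 (fun b : Fin (n + 2) → Fin (n + 2) → R => θ (ofB K b)) := by
  refine ⟨?_, ?_, ?_⟩
  · intro b hb i j hij
    have hF := frame_ofB (K := K) hb
    have key : ∀ i j : Fin (n + 2), i < j →
        θ (ofB K (b ∘ Equiv.swap i j)) = - θ (ofB K b) := by
      intro i j hij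
      obtain ⟨p, q, r, _, _, h1, h2⟩ := ofFn_swap (n + 2) (fun i => toV R K (n + 2) (b i)) i j hij
      have e1 : ofB K b = List.ofFn (fun i => toV R K (n + 2) (b i)) := rfl
      have e2 : ofB K (b ∘ Equiv.swap i j) =
        List.ofFn ((fun i => toV R K (n + 2) (b i)) ∘ Equiv.swap i j) := rfl
      rw [e1, h1] at hF
      rw [e1, e2, h1, h2]
      exact hθ.swap hF
    rcases lt_or_gt_of_ne hij with h | h
    · exact key i j h
    · rw [Equiv.swap_comm]; exact key j i h
  · intro b hb i u
    have hF := frame_ofB (K := K) hb
    obtain ⟨q, r, _, h1, h2⟩ := ofFn_split (n + 2) (fun i => toV R K (n + 2) (b i)) i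
    have e1 : ofB K b = List.ofFn (fun i => toV R K (n + 2) (b i)) := rfl
    have e2 : ofB K (Function.update b i ((u : R) • b i)) =
        List.ofFn (Function.update (fun i => toV R K (n + 2) (b i)) i
          ((u : R) • toV R K (n + 2) (b i))) := by
      unfold ofB
      congr 1
      funext k
      by_cases hk : k = i
      · subst hk; simp
      · simp [Function.update_of_ne hk]
    rw [e1, h1] at hF
    rw [e1, e2, h1, h2]
    exact hθ.unit' q u _ r hF
  · intro b hb
    have hF := frame_ofB (K := K) hb
    have e : ∀ c : Fin (n + 2) → Fin (n + 2) → R, ofB K c =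
        toV R K (n + 2) (c 0) :: toV R K (n + 2) (c 1) ::
          List.ofFn (fun k : Fin n => toV R K (n + 2) (c k.succ.succ)) := by
      intro c
      unfold ofB
      rw [List.ofFn_succ, List.ofFn_succ]
      rfl
    have h1 : ∀ k : Fin n, (k.succ.succ : Fin (n + 2)) ≠ 0 := fun k => Fin.succ_ne_zero _
    have h2 : ∀ k : Fin n, (k.succ.succ : Fin (n + 2)) ≠ 1 := fun k => by
      rw [Ne, ← Fin.succ_zero_eq_one, Fin.succ_inj]; exact Fin.succ_ne_zero _
    have h3 : (1 : Fin (n + 2)) ≠ 0 := by
      rw [← Fin.succ_zero_eq_one]; exact Fin.succ_ne_zero _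
    rw [e] at hF
    have h4 := hθ.add _ _ _ hF
    rw [e b, e (Function.update b 0 (b 0 + b 1)),
      e (Function.update (Function.update b 0 (b 0 + b 1)) 1 (b 0))]
    simp only [Function.update_self, Function.update_of_ne (h1 _), Function.update_of_ne (h2 _),
      Function.update_of_ne h3, Function.update_of_ne h3.symm, map_add]
    exact h4

open Classical in
/-- The function on lists given by a function on matrices. -/
noncomputable def lift {B : Type} [AddCommGroup B]
    (Ψ : (Fin (n + 2) → Fin (n + 2) → R) → B) (l : List (Fin (n + 2) → K)) : B :=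
  if Frame (lat R K (n + 2)) (⊥ : Submodule K (Fin (n + 2) → K)) l then Ψ (mat R l) else 0

theorem mat_apply (l : List (Fin (n + 2) → K)) (i : Fin (n + 2)) :
    mat R l i = Function.invFun (toV R K (n + 2)) (l.getD i 0) := rfl

theorem tr_toV (a : Fin (n + 2) → R) :
    Function.invFun (toV R K (n + 2)) (toV R K (n + 2) a) = a :=
  Function.leftInverse_invFun toV_injective a

theorem good_lift {B : Type} [AddCommGroup B] {Ψ : (Fin (n + 2) → Fin (n + 2) → R) → B}
    (hΨ : Rels (0 : Fin (n + 2)) 1 Ψ) :
    Good (lat R K (n + 2)) (⊥ : Submodule K (Fin (n + 2) → K)) (lift (K := K) Ψ) := by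
  refine ⟨?_, ?_, ?_, ?_⟩
  · intro l₁ x y l₂ hF
    have hF' : Frame (lat R K (n + 2)) (⊥ : Submodule K (Fin (n + 2) → K))
        (l₁ ++ y :: x :: l₂) :=
      hF.congr_perm (List.Perm.append_left _ (List.Perm.swap _ _ _))
    unfold lift
    rw [if_pos hF, if_pos hF']
    have hlen : (l₁ ++ x :: y :: l₂).length = n + 2 := by
      have := hF.2.2
      simpa using this
    have hlen2 : l₁.length + 1 < n + 2 := by simp at hlen; omega
    have hm := ofB_mat hF
    set b := mat R (l₁ ++ x :: y :: l₂) with hb
    have hbB : IsB b := isB_mat hF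
    have h1 := hΨ.perm b hbB ⟨l₁.length, by omega⟩ ⟨l₁.length + 1, hlen2⟩ (by simp [Fin.ext_iff])
    rw [← h1]
    congr 1
    obtain ⟨p, q, r, hp, hq, h3, h4⟩ := ofFn_swap (n + 2) (fun i => toV R K (n + 2) (b i))
      ⟨l₁.length, by omega⟩ ⟨l₁.length + 1, hlen2⟩ (by simp [Fin.lt_def])
    simp only at hp hq
    have hq0 : q = [] := List.length_eq_zero_iff.mp (by omega)
    subst hq0
    have e1 : ofB K b = List.ofFn (fun i => toV R K (n + 2) (b i)) := rfl
    rw [← e1, hm] at h3
    obtain ⟨rfl, h5⟩ := List.append_inj h3 hp.symm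
    simp only [List.nil_append, List.cons.injEq] at h5
    obtain ⟨h6, h7, h8⟩ := h5
    rw [← h6, ← h7, ← h8] at h4
    simp only [List.nil_append] at h4
    rw [← h4]
    exact mat_ofB (K := K) (b ∘ Equiv.swap _ _)
  · intro u x l hF
    have hF' : Frame (lat R K (n + 2)) (⊥ : Submodule K (Fin (n + 2) → K))
        ((u : R) • x :: l) := by
      refine hF.mono (by simp) ?_ ?_
      · intro z hz
        rcases List.mem_cons.mp hz with rfl | hz
        · exact Submodule.smul_mem _ _ (hF.1 x (by simp))
        · exact hF.1 z (by simp [hz])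
      · intro z hz
        rcases List.mem_cons.mp hz with rfl | hz
        · exact mem_of_unit_smul u (mem_sup_of_mem (by simp))
        · exact mem_sup_of_mem (by simp [hz])
    unfold lift
    rw [if_pos hF, if_pos hF', ← hΨ.unit _ (isB_mat hF) 0 u]
    congr 1
    funext i
    refine Fin.cases ?_ (fun i => ?_) i
    · rw [Function.update_self, mat_apply, mat_apply]
      obtain ⟨a, rfl⟩ := hF.1 x (by simp)
      simp only [Fin.val_zero, List.getD_cons_zero]
      rw [← map_smul, tr_toV, tr_toV]
    · rw [Function.update_of_ne (Fin.succ_ne_zero i), mat_apply, mat_apply]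
      simp
  · intro h x l _ hh _
    rw [Submodule.mem_bot] at hh
    rw [hh, add_zero]
  · intro x y l hF
    have hxΛ := hF.1 x (by simp)
    have hyΛ := hF.1 y (by simp)
    have hF2 : Frame (lat R K (n + 2)) (⊥ : Submodule K (Fin (n + 2) → K))
        ((x + y) :: y :: l) := by
      refine hF.mono (by simp) ?_ ?_
      · intro z hz
        simp only [List.mem_cons] at hz
        rcases hz with rfl | rfl | hz
        · exact Submodule.add_mem _ hxΛ hyΛ
        · exact hyΛ
        · exact hF.1 z (by simp [hz])
      · intro z hz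
        simp only [List.mem_cons] at hz
        rcases hz with rfl | rfl | hz
        · have : z = (z + y) - y := by abel
          rw [this]
          exact Submodule.sub_mem _ (mem_sup_of_mem (by simp)) (mem_sup_of_mem (by simp))
        · exact mem_sup_of_mem (by simp)
        · exact mem_sup_of_mem (by simp [hz])
    have hF3 : Frame (lat R K (n + 2)) (⊥ : Submodule K (Fin (n + 2) → K))
        ((x + y) :: x :: l) := by
      refine hF.mono (by simp) ?_ ?_
      · intro z hz
        simp only [List.mem_cons] at hz
        rcases hz with rfl | rfl | hz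
        · exact Submodule.add_mem _ hxΛ hyΛ
        · exact hxΛ
        · exact hF.1 z (by simp [hz])
      · intro z hz
        simp only [List.mem_cons] at hz
        rcases hz with rfl | rfl | hz
        · exact mem_sup_of_mem (by simp)
        · have : z = (x + z) - x := by abel
          rw [this]
          exact Submodule.sub_mem _ (mem_sup_of_mem (by simp)) (mem_sup_of_mem (by simp))
        · exact mem_sup_of_mem (by simp [hz])
    unfold lift
    rw [if_pos hF, if_pos hF2, if_pos hF3]
    obtain ⟨a, rfl⟩ := hxΛ
    obtain ⟨c, rfl⟩ := hyΛ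
    have h1 := hΨ.add _ (isB_mat hF)
    have m0 : mat R (toV R K (n + 2) a :: toV R K (n + 2) c :: l) 0 = a := by
      rw [mat_apply]; simp only [Fin.val_zero, List.getD_cons_zero]; exact tr_toV a
    have m1 : mat R (toV R K (n + 2) a :: toV R K (n + 2) c :: l) 1 = c := by
      rw [mat_apply]
      simp only [Fin.val_one, List.getD_cons_succ, List.getD_cons_zero]; exact tr_toV c
    have h3 : (1 : Fin (n + 2)) ≠ 0 := by
      rw [← Fin.succ_zero_eq_one]; exact Fin.succ_ne_zero _
    have e2 : mat R ((toV R K (n + 2) a + toV R K (n + 2) c) :: toV R K (n + 2) c :: l) =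
        Function.update (mat R (toV R K (n + 2) a :: toV R K (n + 2) c :: l)) 0 (a + c) := by
      funext i
      refine Fin.cases ?_ (fun i => ?_) i
      · rw [Function.update_self, mat_apply]
        simp only [Fin.val_zero, List.getD_cons_zero]
        rw [← map_add, tr_toV]
      · rw [Function.update_of_ne (Fin.succ_ne_zero i), mat_apply, mat_apply]
        simp
    have e3 : mat R ((toV R K (n + 2) a + toV R K (n + 2) c) :: toV R K (n + 2) a :: l) =
        Function.update (Function.update
          (mat R (toV R K (n + 2) a :: toV R K (n + 2) c :: l)) 0 (a + c)) 1 a := by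
      funext i
      refine Fin.cases ?_ (fun i => ?_) i
      · rw [Function.update_of_ne h3.symm, Function.update_self, mat_apply]
        simp only [Fin.val_zero, List.getD_cons_zero]
        rw [← map_add, tr_toV]
      · refine Fin.cases ?_ (fun i => ?_) i
        · rw [Fin.succ_zero_eq_one, Function.update_self, mat_apply]
          simp only [Fin.val_one, List.getD_cons_succ, List.getD_cons_zero]
          exact tr_toV a
        · rw [Function.update_of_ne, Function.update_of_ne (Fin.succ_ne_zero _), mat_apply,
            mat_apply]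
          · simp
          · rw [Ne, ← Fin.succ_zero_eq_one, Fin.succ_inj]; exact Fin.succ_ne_zero _
    rw [m0, m1] at h1
    rw [e2, e3]
    exact h1

end

end Pool.Agent.W31.SN
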