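import Pool.Agent.W31.SN.B2

/-! # Cycles in the format of the problem (S02757) -/

namespace Pool.Agent.W31.SN

open scoped BigOperators

set_option linter.unusedSectionVars false
set_option autoImplicit false

section

variable {X : Type}

theorem D_eq {m : ℕ} (x : (Fin (m + 1) → X) →₀ ℤ) :
    x.sum (fun f a => ∑ i : Fin (m + 1),
        Finsupp.single (f ∘ Fin.succAbove i) ((-1 : ℤ) ^ (i : ℕ) * a)) =
      ∑ i : Fin (m + 1), (-1 : ℤ) ^ (i : ℕ) •
        Finsupp.mapDomain (fun f : Fin (m + 1) → X => f ∘ Fin.succAbove i) x := by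
  rw [Finsupp.sum, Finset.sum_comm]
  refine Finset.sum_congr rfl fun i _ => ?_
  rw [Finsupp.mapDomain, Finsupp.sum, Finset.smul_sum]
  refine Finset.sum_congr rfl fun f _ => ?_
  rw [Finsupp.smul_single, smul_eq_mul]

theorem getD_eraseIdx (d : X) : ∀ (F : List X) (i j : ℕ),
    (F.eraseIdx i).getD j d = F.getD (if j < i then j else j + 1) d := by
  intro F i j
  simp only [List.getD_eq_getElem?_getD, List.getElem?_eraseIdx]
  split_ifs <;> rfl

theorem ofFn_eraseIdx {m : ℕ} (f : Fin (m + 1) → X) (i : Fin (m + 1)) (t : X) :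
    (List.ofFn f ++ [t]).eraseIdx i = List.ofFn (f ∘ Fin.succAbove i) ++ [t] := by
  have hi : (i : ℕ) < (List.ofFn f).length := by rw [List.length_ofFn]; exact i.isLt
  rw [List.eraseIdx_append_of_lt_length hi]
  congr 1
  apply List.ext_getElem
  · rw [List.length_eraseIdx_of_lt hi, List.length_ofFn, List.length_ofFn]
    rfl
  · intro j h1 h2
    rw [List.getElem_eraseIdx]
    simp only [List.getElem_ofFn, Function.comp_apply, Fin.succAbove, Fin.lt_def,
      Fin.val_castSucc]
    split_ifs with h3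
    · rfl
    · rfl

end

section

variable {K : Type} [Field K] {n : ℕ}

/-- proper flags of `K^(n+2)` -/
abbrev TT (K : Type) [Field K] (n : ℕ) : Type :=
  (Fin (n + 1) → Submodule K (Fin (n + 2) → K)) →₀ ℤ

/-- The Steinberg module. -/
def SS (K : Type) [Field K] (n : ℕ) : AddSubgroup (TT K n) where
  carrier := {x | (∀ f ∈ x.support, StrictMono f ∧ ∀ i, f i ≠ ⊥ ∧ f i ≠ ⊤) ∧
          x.sum (fun f a => ∑ i : Fin (n + 1),
            Finsupp.single (f ∘ Fin.succAbove i) ((-1 : ℤ) ^ (i : ℕ) * a)) = 0}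
  zero_mem' := by
    refine ⟨fun f hf => ?_, by simp⟩
    simp at hf
  add_mem' := by
    classical
    rintro x y ⟨hx1, hx2⟩ ⟨hy1, hy2⟩
    refine ⟨fun f hf => ?_, ?_⟩
    · rcases Finset.mem_union.mp (Finsupp.support_add hf) with h | h
      · exact hx1 f h
      · exact hy1 f h
    · rw [D_eq] at hx2 hy2 ⊢
      simp only [Finsupp.mapDomain_add, smul_add, Finset.sum_add_distrib]
      rw [hx2, hy2, add_zero]
  neg_mem' := by
    rintro x ⟨hx1, hx2⟩
    refine ⟨fun f hf => hx1 f (by simpa using hf), ?_⟩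
    rw [D_eq] at hx2 ⊢
    have h1 : ∀ i : Fin (n + 1), Finsupp.mapDomain
        (fun f : Fin (n + 1) → Submodule K (Fin (n + 2) → K) => f ∘ Fin.succAbove i) (-x) =
        - Finsupp.mapDomain
        (fun f : Fin (n + 1) → Submodule K (Fin (n + 2) → K) => f ∘ Fin.succAbove i) x :=
      fun i => map_neg (Finsupp.mapDomain.addMonoidHom _) x
    simp only [h1, smul_neg, Finset.sum_neg_distrib]
    rw [hx2, neg_zero]

theorem mem_SS {x : TT K n} : x ∈ SS K n ↔
    (∀ f ∈ x.support, StrictMono f ∧ ∀ i, f i ≠ ⊥ ∧ f i ≠ ⊤) ∧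
          x.sum (fun f a => ∑ i : Fin (n + 1),
            Finsupp.single (f ∘ Fin.succAbove i) ((-1 : ℤ) ^ (i : ℕ) * a)) = 0 := Iff.rfl

/-- from proper flags to flags with the whole space as last member -/
noncomputable def io : TT K n →+ (List (Submodule K (Fin (n + 2) → K)) →₀ ℤ) :=
  Finsupp.mapDomain.addMonoidHom (fun f => List.ofFn f ++ [⊤])

/-- and back -/
noncomputable def ta : (List (Submodule K (Fin (n + 2) → K)) →₀ ℤ) →+ TT K n :=
  Finsupp.mapDomain.addMonoidHom (fun F i => F.getD (i : ℕ) ⊥)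

theorem ta_io (x : TT K n) : ta (io x) = x := by
  change Finsupp.mapDomain _ (Finsupp.mapDomain _ x) = x
  rw [← Finsupp.mapDomain_comp]
  have : ((fun (F : List (Submodule K (Fin (n + 2) → K))) (i : Fin (n + 1)) =>
      F.getD (i : ℕ) ⊥) ∘ fun f => List.ofFn f ++ [⊤]) = id := by
    funext f i
    simp only [Function.comp_apply, id_eq]
    have hi : (i : ℕ) < (List.ofFn f).length := by rw [List.length_ofFn]; exact i.isLt
    rw [List.getD_append _ _ _ _ hi, List.getD_eq_getElem _ _ hi, List.getElem_ofFn]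
  rw [this, Finsupp.mapDomain_id]

theorem dims {f : Fin (n + 1) → Submodule K (Fin (n + 2) → K)} (h1 : StrictMono f)
    (h2 : ∀ i, f i ≠ ⊥ ∧ f i ≠ ⊤) (j : Fin (n + 1)) :
    Module.finrank K (f j) = (j : ℕ) + 1 := by
  have hpos : ∀ i, 1 ≤ Module.finrank K (f i) := by
    intro i
    rw [Nat.one_le_iff_ne_zero, Ne, Submodule.finrank_eq_zero]
    exact (h2 i).1
  have hlt : ∀ i, Module.finrank K (f i) < n + 2 := by
    intro i
    have := Submodule.finrank_lt (h2 i).2
    simpa using this
  let g : Fin (n + 1) → Fin (n + 1) := fun i =>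
    ⟨Module.finrank K (f i) - 1, by have := hpos i; have := hlt i; omega⟩
  have hg : StrictMono g := by
    intro i k hik
    have := Submodule.finrank_lt_finrank_of_lt (h1 hik)
    have := hpos i
    simp only [g, Fin.lt_def]
    omega
  have e1 : j ≤ g j := hg.le_apply
  have e2 : g j ≤ j := hg.apply_le
  have e3 : g j = j := le_antisymm e2 e1
  have e4 := congrArg Fin.val e3
  simp only [g] at e4
  have := hpos j
  omega

theorem d_zero {x : TT K n} (hx : x ∈ SS K n) (i : Fin (n + 1)) :
    Finsupp.mapDomain (fun f : Fin (n + 1) → Submodule K (Fin (n + 2) → K) =>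
      f ∘ Fin.succAbove i) x = 0 := by
  classical
  obtain ⟨h1, h2⟩ := mem_SS.mp hx
  rw [D_eq] at h2
  by_contra hne
  obtain ⟨h, hh⟩ := Finsupp.support_nonempty_iff.mpr hne
  have hval : ∀ k : Fin (n + 1), h ∈ (Finsupp.mapDomain
      (fun f : Fin (n + 1) → Submodule K (Fin (n + 2) → K) => f ∘ Fin.succAbove k) x).support →
      ∀ j, Module.finrank K (h j) = ((k.succAbove j : Fin (n + 1)) : ℕ) + 1 := by
    intro k hk j
    obtain ⟨f, hf, rfl⟩ := Finset.mem_image.mp (Finsupp.mapDomain_support hk)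
    exact dims (h1 f hf).1 (h1 f hf).2 _
  have h3 := DFunLike.congr_fun h2 h
  rw [Finsupp.finsetSum_apply, Finset.sum_eq_single i] at h3
  · rw [Finsupp.smul_apply, Finsupp.zero_apply, smul_eq_mul, mul_eq_zero] at h3
    rcases h3 with h3 | h3
    · exact absurd h3 (by simp)
    · exact (Finsupp.mem_support_iff.mp hh) h3
  · intro k _ hki
    rw [Finsupp.smul_apply]
    by_cases hk : h ∈ (Finsupp.mapDomain
      (fun f : Fin (n + 1) → Submodule K (Fin (n + 2) → K) => f ∘ Fin.succAbove k) x).support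
    · exfalso
      apply hki
      apply Fin.succAbove_left_injective
      funext j
      have e1 := hval k hk j
      have e2 := hval i hh j
      rw [e1] at e2
      exact Fin.ext (by omega)
    · rw [Finsupp.notMem_support_iff.mp hk, smul_zero]
  · intro h4; exact absurd (Finset.mem_univ _) h4

theorem cyc_of_S {x : TT K n} (hx : x ∈ SS K n) :
    IsCyc (⊥ : Submodule K (Fin (n + 2) → K)) (n + 2) (io x) := by
  classical
  have hx' := mem_SS.mp hx
  refine ⟨?_, ?_⟩
  · intro F hF
    obtain ⟨f, hf, rfl⟩ := Finset.mem_image.mp (Finsupp.mapDomain_support hF)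
    obtain ⟨h1, h2⟩ := hx'.1 f hf
    refine ⟨by simp, ?_, by simp⟩
    apply List.Pairwise.isChain
    rw [List.pairwise_cons, List.pairwise_append]
    refine ⟨?_, ?_, List.pairwise_singleton _ _, ?_⟩
    · intro a ha
      rcases List.mem_append.mp ha with ha | ha
      · obtain ⟨i, rfl⟩ := (List.mem_ofFn' _ _).mp ha
        exact bot_lt_iff_ne_bot.mpr (h2 i).1
      · rw [List.mem_singleton.mp ha]
        exact bot_lt_top
    · rw [List.pairwise_ofFn]
      intro i j hij
      exact h1 hij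
    · intro a ha b hb
      obtain ⟨i, rfl⟩ := (List.mem_ofFn' _ _).mp ha
      rw [List.mem_singleton.mp hb]
      exact lt_top_iff_ne_top.mpr (h2 i).2
  · intro i hi
    have h1 := d_zero hx ⟨i, by omega⟩
    change Finsupp.mapDomain _ (Finsupp.mapDomain _ x) = 0
    rw [← Finsupp.mapDomain_comp]
    have h2 : ((fun F : List (Submodule K (Fin (n + 2) → K)) => F.eraseIdx i) ∘
        fun f : Fin (n + 1) → Submodule K (Fin (n + 2) → K) => List.ofFn f ++ [⊤]) =
        (fun h : Fin n → Submodule K (Fin (n + 2) → K) => List.ofFn h ++ [⊤]) ∘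
        fun f : Fin (n + 1) → Submodule K (Fin (n + 2) → K) =>
          f ∘ Fin.succAbove (⟨i, by omega⟩ : Fin (n + 1)) := by
      funext f
      exact ofFn_eraseIdx f ⟨i, by omega⟩ ⊤
    rw [h2, Finsupp.mapDomain_comp, h1, Finsupp.mapDomain_zero]

theorem S_of_cyc {y : List (Submodule K (Fin (n + 2) → K)) →₀ ℤ}
    (hy : IsCyc (⊥ : Submodule K (Fin (n + 2) → K)) (n + 2) y) : ta y ∈ SS K n := by
  classical
  rw [mem_SS]
  refine ⟨?_, ?_⟩
  · intro f hf
    obtain ⟨F, hF, rfl⟩ := Finset.mem_image.mp (Finsupp.mapDomain_support hf)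
    obtain ⟨h1, h2, _⟩ := hy.1 F hF
    rw [List.isChain_iff_pairwise, List.pairwise_cons] at h2
    obtain ⟨h3, h4⟩ := h2
    rw [List.pairwise_iff_getElem] at h4
    have hg : ∀ i : Fin (n + 1), F.getD (i : ℕ) ⊥ = F[(i : ℕ)]'(by rw [h1]; omega) :=
      fun i => List.getD_eq_getElem _ _ _
    refine ⟨?_, ?_⟩
    · intro i j hij
      simp only [hg]
      exact h4 _ _ _ _ hij
    · intro i
      simp only [hg]
      refine ⟨(h3 _ (List.getElem_mem _)).ne', ?_⟩
      have h5 := h4 (i : ℕ) (n + 1) (by rw [h1]; omega) (by rw [h1]; omega) i.isLt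
      exact (h5.trans_le le_top).ne
  · rw [D_eq]
    refine Finset.sum_eq_zero fun i _ => ?_
    have h1 := hy.2 (i : ℕ) (by omega)
    have h2 : Finsupp.mapDomain (fun f : Fin (n + 1) → Submodule K (Fin (n + 2) → K) =>
        f ∘ Fin.succAbove i) (ta y) = 0 := by
      change Finsupp.mapDomain _ (Finsupp.mapDomain _ y) = 0
      rw [← Finsupp.mapDomain_comp]
      have h3 : ((fun f : Fin (n + 1) → Submodule K (Fin (n + 2) → K) => f ∘ Fin.succAbove i) ∘
          fun (F : List (Submodule K (Fin (n + 2) → K))) (i : Fin (n + 1)) =>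
            F.getD (i : ℕ) ⊥) =
          (fun (F : List (Submodule K (Fin (n + 2) → K))) (j : Fin n) => F.getD (j : ℕ) ⊥) ∘
          fun F => F.eraseIdx (i : ℕ) := by
        funext F j
        simp only [Function.comp_apply]
        rw [getD_eraseIdx]
        congr 1
        simp only [Fin.succAbove, Fin.lt_def, Fin.val_castSucc]
        split_ifs <;> simp
      rw [h3, Finsupp.mapDomain_comp, h1, Finsupp.mapDomain_zero]
    rw [h2, smul_zero]

end

end Pool.Agent.W31.SN
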