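import Pool.Agent.W31.SN.B3
import Pool.Agent.W31.SN.A5

/-! # The group action (S02757) -/

namespace Pool.Agent.W31.SN

open scoped BigOperators

set_option linter.unusedSectionVars false
set_option autoImplicit false

section maps

variable {K V : Type} [Field K] [AddCommGroup V] [Module K V]

theorem eraseIdx_map' {α β : Type} (e : α → β) : ∀ (l : List α) (i : ℕ),
    (l.map e).eraseIdx i = (l.eraseIdx i).map e := by
  intro l
  induction l with
  | nil => intro i; simp
  | cons a l ih =>
    intro i
    cases i with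
    | zero => rfl
    | succ i => simp [ih]

theorem aptN_map (e : V →ₗ[K] V) : ∀ (m : ℕ) (W : Submodule K V) (l : List V),
    aptN m (W.map e) (l.map e) =
      Finsupp.mapDomain (List.map (Submodule.map e)) (aptN m W l) := by
  intro m
  induction m with
  | zero =>
    intro W l
    simp [aptN, Finsupp.mapDomain_single]
  | succ m ih =>
    intro W l
    have h : ∀ (W : Submodule K V) (l : List V), aptN (m + 1) W l =
      ∑ i ∈ Finset.range (m + 1), (-1 : ℤ) ^ i •
      Finsupp.mapDomain (List.cons (W ⊔ Submodule.span K {l.getD i 0}))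
        (aptN m (W ⊔ Submodule.span K {l.getD i 0}) (l.eraseIdx i)) := fun _ _ => rfl
    rw [h, h, Finsupp.mapDomain_finsetSum]
    refine Finset.sum_congr rfl fun i _ => ?_
    have h1 : (l.map e).getD i 0 = e (l.getD i 0) := by
      have h0 := List.getD_map l 0 (n := i) e
      rwa [map_zero] at h0
    have h2 : W.map e ⊔ Submodule.span K {e (l.getD i 0)} =
        (W ⊔ Submodule.span K {l.getD i 0}).map e := by
      rw [Submodule.map_sup, Submodule.map_span, Set.image_singleton]
    rw [h1, h2, eraseIdx_map', ih, Finsupp.mapDomain_smul, ← Finsupp.mapDomain_comp,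
      ← Finsupp.mapDomain_comp]
    rfl

theorem apt_map (e : V →ₗ[K] V) (W : Submodule K V) (l : List V) :
    apt (W.map e) (l.map e) = Finsupp.mapDomain (List.map (Submodule.map e)) (apt W l) := by
  unfold apt
  rw [List.length_map]
  exact aptN_map e _ _ _

end maps

section

variable {R K V : Type} [CommRing R] [IsDomain R] [Field K] [Algebra R K] [IsFractionRing R K]
  [AddCommGroup V] [Module K V] [Module R V] [IsScalarTower R K V] [FiniteDimensional K V]

theorem Good.comp {Λ : Submodule R V} {W : Submodule K V} {A B : Type} [AddCommGroup A]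
    [AddCommGroup B] {φ : List V → A} (h : Good Λ W φ) (f : A →+ B) :
    Good Λ W (fun l => f (φ l)) := by
  refine ⟨?_, ?_, ?_, ?_⟩
  · intro l₁ x y l₂ hF
    rw [h.perm l₁ x y l₂ hF, map_neg]
  · intro u x l hF
    rw [h.unit u x l hF]
  · intro k x l hk hk' hF
    rw [h.inv k x l hk hk' hF]
  · intro x y l hF
    rw [← map_sub, ← map_add, h.add x y l hF, map_zero]

end

section action

variable {R K : Type} [CommRing R] [IsDomain R] [Field K] [Algebra R K] [IsFractionRing R K]
  {n : ℕ} {G : Type} [Group G] (φ : G →* Matrix.GeneralLinearGroup (Fin (n + 2)) R)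

/-- The linear map given by a group element. -/
noncomputable def AA (g : G) : (Fin (n + 2) → K) →ₗ[K] (Fin (n + 2) → K) :=
  Matrix.toLin' ((φ g).val.map (algebraMap R K))

theorem AA_one : AA (K := K) φ 1 = LinearMap.id := by
  unfold AA
  rw [map_one, Units.val_one]
  have : (1 : Matrix (Fin (n + 2)) (Fin (n + 2)) R).map (algebraMap R K) = 1 := by
    exact Matrix.map_one _ (map_zero _) (map_one _)
  rw [this, Matrix.toLin'_one]

theorem AA_mul (g h : G) : AA (K := K) φ (g * h) = (AA φ g).comp (AA φ h) := by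
  unfold AA
  rw [map_mul, Units.val_mul, Matrix.map_mul, Matrix.toLin'_mul]

/-- The action on subspaces. -/
noncomputable def sm (g : G) (U : Submodule K (Fin (n + 2) → K)) :
    Submodule K (Fin (n + 2) → K) := U.map (AA φ g)

theorem sm_one : sm (K := K) φ 1 = id := by
  funext U
  unfold sm
  rw [AA_one, Submodule.map_id]; rfl

theorem sm_mul (g h : G) : sm (K := K) φ (g * h) = sm φ g ∘ sm φ h := by
  funext U
  unfold sm
  rw [AA_mul, Submodule.map_comp]; rfl

theorem sm_inv (g : G) (U : Submodule K (Fin (n + 2) → K)) : sm φ g⁻¹ (sm φ g U) = U := by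
  have := congrFun (sm_mul (K := K) φ g⁻¹ g) U
  rw [inv_mul_cancel, sm_one] at this
  exact this.symm

theorem sm_bot (g : G) : sm (K := K) φ g ⊥ = ⊥ := Submodule.map_bot _

theorem sm_mono (g : G) : Monotone (sm (K := K) φ g) := fun _ _ h => Submodule.map_mono h

theorem sm_inj (g : G) : Function.Injective (sm (K := K) φ g) :=
  Function.LeftInverse.injective (sm_inv φ g)

theorem sm_top (g : G) : sm (K := K) φ g ⊤ = ⊤ := by
  have h1 : sm (K := K) φ g (sm φ g⁻¹ ⊤) = ⊤ := by
    have := sm_inv (K := K) φ g⁻¹ ⊤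
    rwa [inv_inv] at this
  rw [eq_top_iff]
  calc (⊤ : Submodule K (Fin (n + 2) → K)) = sm (K := K) φ g (sm φ g⁻¹ ⊤) := h1.symm
    _ ≤ sm (K := K) φ g ⊤ := sm_mono φ g le_top

/-- the action as additive map -/
noncomputable def ac (g : G) : TT K n →+ TT K n :=
  Finsupp.mapDomain.addMonoidHom (fun f j => sm φ g (f j))

theorem ac_one (x : TT K n) : ac φ 1 x = x := by
  change Finsupp.mapDomain (fun f j => sm φ 1 (f j)) x = x
  rw [sm_one]
  exact Finsupp.mapDomain_id

theorem ac_mul (g h : G) (x : TT K n) : ac φ (g * h) x = ac φ g (ac φ h x) := by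
  change Finsupp.mapDomain (fun f j => sm φ (g * h) (f j)) x =
    Finsupp.mapDomain (fun f j => sm φ g (f j)) (Finsupp.mapDomain (fun f j => sm φ h (f j)) x)
  rw [← Finsupp.mapDomain_comp, sm_mul]
  rfl

/-- The action on flags. -/
@[reducible] noncomputable def act : DistribMulAction G (TT K n) :=
  { smul := fun g x => ac φ g x
    one_smul := fun x => ac_one φ x
    mul_smul := fun g h x => ac_mul φ g h x
    smul_zero := fun g => map_zero (ac φ g)
    smul_add := fun g x y => map_add (ac φ g) x y }

theorem ac_SS (g : G) {x : TT K n} (hx : x ∈ SS K n) : ac φ g x ∈ SS K n := by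
  classical
  obtain ⟨h1, h2⟩ := mem_SS.mp hx
  rw [mem_SS]
  refine ⟨?_, ?_⟩
  · intro f hf
    obtain ⟨f', hf', rfl⟩ := Finset.mem_image.mp (Finsupp.mapDomain_support hf)
    obtain ⟨h3, h4⟩ := h1 f' hf'
    refine ⟨?_, ?_⟩
    · intro i j hij
      exact ((sm_mono φ g).strictMono_of_injective (sm_inj φ g)) (h3 hij)
    · intro i
      refine ⟨fun h => (h4 i).1 (sm_inj φ g ?_), fun h => (h4 i).2 (sm_inj φ g ?_)⟩
      · rw [sm_bot]; exact h
      · rw [sm_top]; exact h
  · rw [D_eq] at h2 ⊢
    have h3 : ∀ i : Fin (n + 1), Finsupp.mapDomain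
        (fun f : Fin (n + 1) → Submodule K (Fin (n + 2) → K) => f ∘ Fin.succAbove i)
          (ac φ g x) = 0 := by
      intro i
      change Finsupp.mapDomain _ (Finsupp.mapDomain _ x) = 0
      rw [← Finsupp.mapDomain_comp]
      have h4 : ((fun f : Fin (n + 1) → Submodule K (Fin (n + 2) → K) =>
          f ∘ Fin.succAbove i) ∘ fun f j => sm φ g (f j)) =
          (fun (f : Fin n → Submodule K (Fin (n + 2) → K)) j => sm φ g (f j)) ∘
          fun f : Fin (n + 1) → Submodule K (Fin (n + 2) → K) => f ∘ Fin.succAbove i := rfl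
      rw [h4, Finsupp.mapDomain_comp, d_zero hx, Finsupp.mapDomain_zero]
    simp [h3]

theorem io_ac (g : G) (x : TT K n) :
    io (ac φ g x) = Finsupp.mapDomain (List.map (sm φ g)) (io x) := by
  change Finsupp.mapDomain _ (Finsupp.mapDomain _ x) =
    Finsupp.mapDomain _ (Finsupp.mapDomain _ x)
  rw [← Finsupp.mapDomain_comp, ← Finsupp.mapDomain_comp]
  congr 1
  funext f
  simp only [Function.comp_apply, List.map_append, List.map_cons, List.map_nil, sm_top,
    List.map_ofFn]
  rfl

theorem ta_map (g : G) (y : List (Submodule K (Fin (n + 2) → K)) →₀ ℤ) :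
    ta (Finsupp.mapDomain (List.map (sm φ g)) y) = ac φ g (ta y) := by
  change Finsupp.mapDomain _ (Finsupp.mapDomain _ y) =
    Finsupp.mapDomain _ (Finsupp.mapDomain _ y)
  rw [← Finsupp.mapDomain_comp, ← Finsupp.mapDomain_comp]
  congr 1
  funext F i
  simp only [Function.comp_apply]
  conv_lhs => rw [← sm_bot (K := K) φ g]
  exact List.getD_map _ _ _

/-- multiplication of all columns -/
theorem ofB_map (g : G) (b : Fin (n + 2) → Fin (n + 2) → R) :
    ofB K (fun i => (φ g).val.mulVec (b i)) = (ofB K b).map (AA φ g) := by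
  unfold ofB
  rw [List.map_ofFn]
  congr 1
  funext i
  simp only [Function.comp_apply, AA, Matrix.toLin'_apply]
  funext j
  rw [toV_apply, RingHom.map_mulVec]
  rfl

/-- The classes of the apartments. -/
noncomputable def al (K : Type) [Field K] [Algebra R K] (b : Fin (n + 2) → Fin (n + 2) → R) :
    TT K n := ta (apt ⊥ (ofB K b))

theorem al_equi (g : G) (b : Fin (n + 2) → Fin (n + 2) → R) :
    al K (fun i => (φ g).val.mulVec (b i)) = ac φ g (al K b) := by
  unfold al
  rw [ofB_map, ← ta_map]
  congr 1
  have := apt_map (AA (K := K) φ g) ⊥ (ofB K b)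
  rw [Submodule.map_bot] at this
  exact this

theorem al_rels : Rels (0 : Fin (n + 2)) 1 (al (R := R) (n := n) K) :=
  rels_of_good (((Pool.Agent.W762.SN.done R K (Fin (n + 2) → K) (lat R K (n + 2)) lat_span
    ⊥).1).comp ta)

theorem al_mem {b : Fin (n + 2) → Fin (n + 2) → R} (hb : IsB b) : al K b ∈ SS K n := by
  have hF := frame_ofB (K := K) hb
  have h1 := (Pool.Agent.W762.SN.done R K (Fin (n + 2) → K) (lat R K (n + 2)) lat_span
    ⊥).2 _ hF
  have h2 : (ofB K b).length = n + 2 := by simp [ofB]
  rw [h2] at h1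
  exact S_of_cyc h1

end action

end Pool.Agent.W31.SN
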